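import Pool.Agent.R618.SC.Defs
import Pool.Agent.R439.Geom

set_option autoImplicit false

/-!
Definitions and statements for MP_9fe52c_nt (q-supercongruence modulo `Φ_p(q)^5 Φ_{p^2}(q)`).
Everything is in `K = ℚ(q)`, at the cyclotomic polynomial `Φ_n`, `w n = 1 - q^n`.
-/

namespace Pool.Agent.R618.QP

open Finset Polynomial Pool.Agent.R439 Pool.Agent.R618.SC

/-- truncated exponential -/
noncomputable def ex (x : K) : K := 1 + x + x ^ 2 / 2 + x ^ 3 / 6 + x ^ 4 / 24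

/-- `t`: truncated logarithm of `q^n`, divided by `n` -/
noncomputable def tt (n : ℕ) : K := -(w n + w n ^ 2 / 2 + w n ^ 3 / 3 + w n ^ 4 / 4) / n

/-- `ε = exp(-n t/2)` -/
noncomputable def ep (n : ℕ) : K := ex (-((n : K) / 2) * tt n)

/-- `Y_j = ε Q^j`, `Q = q^(n+1)` -/
noncomputable def Y (n j : ℕ) : K := ep n * q ^ ((n + 1) * j)

/-- `h_j = (1 + Y_j)/(1 - Y_j)` -/
noncomputable def hh (n j : ℕ) : K := (1 + Y n j) / (1 - Y n j)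

/-- `g_j = Y_j + Y_j⁻¹ - 2` -/
noncomputable def gj (n j : ℕ) : K := Y n j + (Y n j)⁻¹ - 2

/-- `H_j = h_1 + ⋯ + h_j` -/
noncomputable def HH (n j : ℕ) : K := ∑ i ∈ range j, hh n (i + 1)

/-- `L_j = -h_j (h_j^2 - 1)/4` -/
noncomputable def Lm (n j : ℕ) : K := -(hh n j * (hh n j ^ 2 - 1) / 4)

/-- `Λ_j = L_1 + ⋯ + L_j` -/
noncomputable def La (n j : ℕ) : K := ∑ i ∈ range j, Lm n (i + 1)

/-- `E = n(n+1) t` -/
noncomputable def EE (n : ℕ) : K := (n : K) * (n + 1) * tt n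

/-- `κ = -(n+1) n^3 t^3/4` -/
noncomputable def kap (n : ℕ) : K := -((n + 1) * (n : K) ^ 3 / 4) * tt n ^ 3

/-- `σ = n^2 t/2` -/
noncomputable def sig (n : ℕ) : K := (n : K) ^ 2 / 2 * tt n

/-- `ρ = (n^2 + n/2) t` -/
noncomputable def rho (n : ℕ) : K := ((n : K) ^ 2 + n / 2) * tt n

/-- `Ψ = -(n^2-1)/12` -/
noncomputable def Psi (n : ℕ) : K := -((n : K) ^ 2 - 1) / 12

/-- `ω_(i+1) = Q^n ((1 - q Q^i)/(1 - Q^(i+1)))^(2(n+1))` -/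
noncomputable def om (n i : ℕ) : K :=
  q ^ (n * (n + 1)) * ((1 - q ^ ((n + 1) * i + 1)) / (1 - q ^ ((n + 1) * (i + 1)))) ^ (2 * (n + 1))

/-- `W_j = ω_1 ⋯ ω_j` -/
noncomputable def Wj (n j : ℕ) : K := ∏ i ∈ range j, om n i

/-- `η = (1+Q)/(1-Q)` -/
noncomputable def eta (n : ℕ) : K := (1 + q ^ (n + 1)) / (1 - q ^ (n + 1))

/-- `G_n = (Y_(n-1)⁻¹ + Q Y_(n-1))/(1-Q)` -/
noncomputable def Gn (n : ℕ) : K :=
  ((Y n (n - 1))⁻¹ + q ^ (n + 1) * Y n (n - 1)) / (1 - q ^ (n + 1))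

noncomputable def S1 (n : ℕ) : K := ∑ i ∈ range (n - 1), gj n (i + 1) * hh n (i + 1)
noncomputable def S2 (n : ℕ) : K :=
  ∑ i ∈ range (n - 1), gj n (i + 1) * (HH n (i + 1) ^ 2 - HH n i ^ 2)
noncomputable def S3 (n : ℕ) : K :=
  ∑ i ∈ range (n - 1), gj n (i + 1) * (HH n (i + 1) ^ 3 - HH n i ^ 3)
noncomputable def S4 (n : ℕ) : K :=
  ∑ i ∈ range (n - 1), gj n (i + 1) * (HH n (i + 1) ^ 4 - HH n i ^ 4)
noncomputable def S5 (n : ℕ) : K := ∑ i ∈ range (n - 1), gj n (i + 1) * Lm n (i + 1)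
noncomputable def S6 (n : ℕ) : K :=
  ∑ i ∈ range (n - 1), gj n (i + 1) * (La n (i + 1) * HH n (i + 1) - La n i * HH n i)

/-- `Φ = ∑_(j<n) (g_(j+1) - g_j) W_j` -/
noncomputable def Ph (n : ℕ) : K := ∑ j ∈ range n, (gj n (j + 1) - gj n j) * Wj n j

/-- `(1-q)` times the sum of the problem -/
noncomputable def FF (n : ℕ) : K := ∑ j ∈ range n, (1 - q ^ (2 * (n + 1) * j + 1)) *
  (poch q (q ^ (n + 1)) j / poch (q ^ (n + 1)) (q ^ (n + 1)) j) ^ (2 * (n + 1)) *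
    q ^ ((n ^ 2 - 1) * j)

/-! ### Statements -/

/-- EX: calculus of the truncated exponential. -/
def T_EX : Prop :=
  (∀ (n : ℕ) [NeZero n] (x y : K), I n 1 x → I n 1 y → EQ n 5 (ex (x + y)) (ex x * ex y)) ∧
  ∀ (n : ℕ) [NeZero n], I n 1 (tt n) ∧ I n 2 (w n + n * tt n) ∧
    (∀ k : ℕ, EQ n 5 (q ^ (n * k)) (ex (k * n * tt n))) ∧
    U n (ep n) ∧ EQ n 5 (ep n ^ 2 * q ^ n) 1

/-- UN: the elements are units or integral at `Φ_n`. -/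
def T_UN : Prop := ∀ (n : ℕ) [NeZero n], 1 < n →
  (∀ j, U n (Y n j)) ∧ (∀ j, 0 < j → j < n → U n (1 - Y n j)) ∧
  (∀ j, 0 < j → j < n → hh n j ∈ O n) ∧ (∀ j, gj n j ∈ O n) ∧
  (∀ j, j < n → HH n j ∈ O n) ∧ (∀ j, j < n → La n j ∈ O n) ∧
  (∀ i, i + 1 < n → U n (om n i)) ∧ eta n ∈ O n ∧ Gn n ∈ O n

/-- OM: expansion of `ω_(i+1)` and of `W_j`. -/
def T_OM : Prop := ∀ (n : ℕ) [NeZero n], 1 < n →
  (∀ i, i + 1 < n → EQ n 5 (om n i) (ex (EE n * hh n (i + 1) + kap n / 3 * Lm n (i + 1)))) ∧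
  ∀ j, j < n → EQ n 5 (Wj n j) (ex (EE n * HH n j + kap n / 3 * La n j))

/-- SUM: exact identities. -/
def T_SUM : Prop := ∀ (n : ℕ) [NeZero n], 1 < n →
  S2 n = 2 * (Gn n - eta n) * HH n (n - 1) - eta n * S1 n ∧
  S3 n = 3 * (Gn n - eta n) * HH n (n - 1) ^ 2 - (S1 n + 4 * HH n (n - 1)) / 2 -
    3 / 2 * eta n * S2 n ∧
  S5 n = -HH n (n - 1)

/-- S1G: expansions of `S1`, `G_n`, `g_n`, `g_0`. -/
def T_S1G : Prop := ∀ (n : ℕ) [NeZero n], 1 < n →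
  I n 4 (S1 n - (2 * sig n + eta n * sig n * EE n + sig n ^ 3 / 3 + sig n * EE n ^ 2 / 4)) ∧
  I n 2 (Gn n - eta n - rho n) ∧
  I n 5 (gj n n - (rho n ^ 2 + rho n ^ 4 / 12)) ∧
  I n 5 (gj n 0 - (((n : K) / 2 * tt n) ^ 2 + ((n : K) / 2 * tt n) ^ 4 / 12))

/-- HN: `H_(n-1)` modulo the square. -/
def T_HN : Prop := ∀ (n : ℕ) [NeZero n], 1 < n → I n 2 (HH n (n - 1) - 2 * sig n * Psi n)

/-- RF: reflection `j → n - j`. -/
def T_RF : Prop := ∀ (n : ℕ) [NeZero n], 1 < n → I n 1 (S4 n) ∧ I n 1 (S6 n)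

/-- PHI: the value of `Φ` modulo the fifth power. -/
def T_PHI : Prop := ∀ (n : ℕ) [NeZero n], 1 < n →
  EQ n 5 (Ph n) (Psi n * sig n * (2 * EE n * sig n ^ 2 + EE n ^ 3 / 6 + 2 / 3 * kap n))

/-- FP: the sum in terms of `Φ`. -/
def T_FP : Prop := ∀ (n : ℕ) [NeZero n], 1 < n →
  EQ n 5 ((1 - q ^ (n + 1)) * FF n) (q ^ (n + 1) * ep n * Ph n)

/-- SQ: the sum at `Φ_{n^2}`. -/
def T_SQ : Prop := ∀ (n : ℕ) [NeZero (n ^ 2)], 1 < n → I (n ^ 2) 1 (FF n)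

end Pool.Agent.R618.QP
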