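import Pool.Agent.R618.QP.Defs

set_option autoImplicit false

/-!
QP-EX (MP_9fe52c_nt): truncated exponential calculus modulo `w^5`.
-/

namespace Pool.Agent.R618.QP

open Finset Polynomial Pool.Agent.R439 Pool.Agent.R618.SC

theorem EX_inv {n : ℕ} [NeZero n] (k : ℕ) : (1 : K) / (k : K) ∈ O n := by
  rw [one_div]
  exact natinv_mem k

theorem EX_add {n : ℕ} [NeZero n] (x y : K) (hx : I n 1 x) (hy : I n 1 y) :
    I n 5 (ex (x + y) - ex x * ex y) := by
  obtain ⟨a, ha, rfl⟩ := hx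
  obtain ⟨b, hb, rfl⟩ := hy
  have hw := w_mem (n := n)
  have h576 : (1 : K) / 576 ∈ O n := by simpa using EX_inv (n := n) 576
  refine ⟨1 / 576 * -(24 * a * b ^ 4 + 48 * a ^ 2 * b ^ 3 + 48 * a ^ 3 * b ^ 2 + 24 * a ^ 4 * b +
    w n * (12 * a ^ 2 * b ^ 4 + 16 * a ^ 3 * b ^ 3 + 12 * a ^ 4 * b ^ 2) +
    w n ^ 2 * (4 * a ^ 3 * b ^ 4 + 4 * a ^ 4 * b ^ 3) + w n ^ 3 * (a ^ 4 * b ^ 4)), ?_, ?_⟩
  · refine mul_mem h576 (neg_mem ?_)
    repeat' first
      | exact ha
      | exact hb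
      | exact hw
      | exact ofNat_mem _ _
      | with_reducible apply pow_mem
      | with_reducible apply add_mem
      | with_reducible apply mul_mem
  · unfold ex
    ring

theorem EX_mem {n : ℕ} [NeZero n] {x : K} (hx : x ∈ O n) : ex x ∈ O n := by
  have h2 : (1 : K) / 2 ∈ O n := by simpa using EX_inv (n := n) 2
  have h6 : (1 : K) / 6 ∈ O n := by simpa using EX_inv (n := n) 6
  have h24 : (1 : K) / 24 ∈ O n := by simpa using EX_inv (n := n) 24
  have e : ex x = 1 + x + x ^ 2 * (1 / 2) + x ^ 3 * (1 / 6) + x ^ 4 * (1 / 24) := by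
    unfold ex; ring
  rw [e]
  exact add_mem (add_mem (add_mem (add_mem (one_mem _) hx) (mul_mem (pow_mem hx _) h2))
    (mul_mem (pow_mem hx _) h6)) (mul_mem (pow_mem hx _) h24)

theorem EX_one {n : ℕ} [NeZero n] {x : K} (hx : I n 1 x) : EQ n 1 (ex x) 1 := by
  have hO := hx.mem
  refine ⟨EX_mem hO, one_mem _, ?_⟩
  have h2 : (1 : K) / 2 ∈ O n := by simpa using EX_inv (n := n) 2
  have h6 : (1 : K) / 6 ∈ O n := by simpa using EX_inv (n := n) 6
  have h24 : (1 : K) / 24 ∈ O n := by simpa using EX_inv (n := n) 24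
  have e : ex x - 1 = x * (1 + x * (1 / 2) + x ^ 2 * (1 / 6) + x ^ 3 * (1 / 24)) := by
    unfold ex; ring
  rw [e]
  exact hx.mulR (add_mem (add_mem (add_mem (one_mem _) (mul_mem hO h2))
    (mul_mem (pow_mem hO _) h6)) (mul_mem (pow_mem hO _) h24))

theorem EX_tt {n : ℕ} [NeZero n] : I n 1 (tt n) := by
  have hw := w_mem (n := n)
  have h2 : (1 : K) / 2 ∈ O n := by simpa using EX_inv (n := n) 2
  have h3 : (1 : K) / 3 ∈ O n := by simpa using EX_inv (n := n) 3
  have h4 : (1 : K) / 4 ∈ O n := by simpa using EX_inv (n := n) 4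
  have hn := EX_inv (n := n) n
  refine ⟨-(1 + w n * (1 / 2) + w n ^ 2 * (1 / 3) + w n ^ 3 * (1 / 4)) * (1 / (n : K)), ?_, ?_⟩
  · exact mul_mem (neg_mem (add_mem (add_mem (add_mem (one_mem _) (mul_mem hw h2))
      (mul_mem (pow_mem hw _) h3)) (mul_mem (pow_mem hw _) h4))) hn
  · unfold tt
    ring

theorem EX_ntt {n : ℕ} [NeZero n] :
    (n : K) * tt n = -(w n + w n ^ 2 / 2 + w n ^ 3 / 3 + w n ^ 4 / 4) := by
  have hn : (n : K) ≠ 0 := by exact_mod_cast (NeZero.ne n)
  unfold tt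
  field_simp

theorem EX_half {n : ℕ} [NeZero n] (c : ℚ) : I n 1 ((c : K) * tt n) :=
  EX_tt.mulL (rat_mem c)

theorem EX_exp {n : ℕ} [NeZero n] : EQ n 5 (q ^ n) (ex ((n : K) * tt n)) := by
  have hI : I n 1 ((n : K) * tt n) := EX_tt.mulL (natCast_mem _ _)
  have hw := w_mem (n := n)
  refine ⟨pow_mem' n, EX_mem hI.mem, I.symm ?_⟩
  rw [EX_ntt]
  have e : q ^ n = 1 - w n := by unfold w; ring
  rw [e]
  have hL : (1 : K) / 497664 ∈ O n := by simpa using EX_inv (n := n) 497664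
  refine ⟨1 / 497664 * (103680 - 6912 * w n + 3456 * w n ^ 2 + 11664 * w n ^ 3 + 14208 * w n ^ 4 +
    22944 * w n ^ 5 + 16224 * w n ^ 6 + 9544 * w n ^ 7 + 4656 * w n ^ 8 + 1512 * w n ^ 9 +
    432 * w n ^ 10 + 81 * w n ^ 11), ?_, ?_⟩
  · refine mul_mem hL ?_
    repeat' first
      | exact hw
      | exact ofNat_mem _ _
      | with_reducible apply pow_mem
      | with_reducible apply add_mem
      | with_reducible apply sub_mem
      | with_reducible apply mul_mem
  · unfold ex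
    ring

theorem EX_pow {n : ℕ} [NeZero n] (k : ℕ) : EQ n 5 (q ^ (n * k)) (ex (k * n * tt n)) := by
  induction k with
  | zero =>
    have e : ex (((0 : ℕ) : K) * n * tt n) = 1 := by
      unfold ex
      push_cast
      ring
    rw [e, mul_zero, pow_zero]
    exact EQ.refl (one_mem _)
  | succ k ih =>
    have hI : I n 1 ((n : K) * tt n) := EX_tt.mulL (natCast_mem _ _)
    have hI' : I n 1 ((k : K) * n * tt n) := by
      rw [mul_assoc]
      exact hI.mulL (natCast_mem _ _)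
    have h1 := ih.mul EX_exp
    have h2 : EQ n 5 (ex ((k : K) * n * tt n + n * tt n)) (ex (k * n * tt n) * ex (n * tt n)) :=
      ⟨EX_mem (add_mem hI'.mem hI.mem), mul_mem (EX_mem hI'.mem) (EX_mem hI.mem),
        EX_add _ _ hI' hI⟩
    have e : ((k + 1 : ℕ) : K) * n * tt n = (k : K) * n * tt n + n * tt n := by
      push_cast
      ring
    rw [e, mul_add, mul_one, pow_add]
    exact h1.trans h2.symm

theorem tex : T_EX := by
  refine ⟨fun n _ x y hx hy => ⟨EX_mem (hx.add hy).mem, mul_mem (EX_mem hx.mem) (EX_mem hy.mem),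
    EX_add x y hx hy⟩, fun n _ => ⟨EX_tt, ?_, EX_pow, ?_, ?_⟩⟩
  · rw [EX_ntt]
    have hw := w_mem (n := n)
    have h2 : (1 : K) / 2 ∈ O n := by simpa using EX_inv (n := n) 2
    have h3 : (1 : K) / 3 ∈ O n := by simpa using EX_inv (n := n) 3
    have h4 : (1 : K) / 4 ∈ O n := by simpa using EX_inv (n := n) 4
    refine ⟨-((1 / 2) + w n * (1 / 3) + w n ^ 2 * (1 / 4)), ?_, by ring⟩
    exact neg_mem (add_mem (add_mem h2 (mul_mem hw h3)) (mul_mem (pow_mem hw _) h4))
  · have hI : I n 1 (-((n : K) / 2) * tt n) := by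
      have := EX_half (n := n) (-((n : ℚ) / 2))
      push_cast at this
      exact this
    exact (EX_one hI).symm.unit one_pos U.one
  · have hI : I n 1 (-((n : K) / 2) * tt n) := by
      have := EX_half (n := n) (-((n : ℚ) / 2))
      push_cast at this
      exact this
    have hI2 : I n 1 (-((n : K) * tt n)) := (EX_tt.mulL (natCast_mem _ _)).neg
    have hI3 : I n 1 ((n : K) * tt n) := EX_tt.mulL (natCast_mem _ _)
    have h1 : EQ n 5 (ep n ^ 2) (ex (-((n : K) * tt n))) := by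
      have e : -((n : K) * tt n) = -((n : K) / 2) * tt n + -((n : K) / 2) * tt n := by ring
      rw [e, sq]
      unfold ep
      exact ⟨mul_mem (EX_mem hI.mem) (EX_mem hI.mem), EX_mem (add_mem hI.mem hI.mem),
        I.symm (EX_add _ _ hI hI)⟩
    have h2 := h1.mul (EX_exp (n := n))
    have h3 : EQ n 5 (ex (-((n : K) * tt n)) * ex ((n : K) * tt n)) 1 := by
      have h4 := EX_add _ _ hI2 hI3
      rw [neg_add_cancel] at h4
      have e0 : ex 0 = 1 := by unfold ex; ring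
      rw [e0] at h4
      exact ⟨mul_mem (EX_mem hI2.mem) (EX_mem hI3.mem), one_mem _, h4.symm⟩
    exact h2.trans h3

end Pool.Agent.R618.QP
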