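import Pool.Agent.R618.QP.Defs

set_option autoImplicit false

/-!
Piece FP of MP_9fe52c_nt: the sum in terms of `Φ`.
-/

namespace Pool.Agent.R618.QP

open Finset Polynomial Pool.Agent.R439 Pool.Agent.R618.SC

theorem FP_W (n j : ℕ) : Wj n j = q ^ (n * (n + 1) * j) *
    (poch q (q ^ (n + 1)) j / poch (q ^ (n + 1)) (q ^ (n + 1)) j) ^ (2 * (n + 1)) := by
  unfold Wj om poch
  rw [prod_mul_distrib, prod_const, card_range, ← pow_mul, prod_pow, prod_div_distrib]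
  congr 3
  · refine prod_congr rfl fun i _ => ?_
    rw [← pow_mul, pow_succ']
  · refine prod_congr rfl fun i _ => ?_
    rw [← pow_mul, ← pow_add]
    congr 2
    ring

theorem FP_term (n j : ℕ) (hn : 1 < n) : (1 - q ^ (2 * (n + 1) * j + 1)) *
    (poch q (q ^ (n + 1)) j / poch (q ^ (n + 1)) (q ^ (n + 1)) j) ^ (2 * (n + 1)) *
    q ^ ((n ^ 2 - 1) * j) = ((q ^ ((n + 1) * j))⁻¹ - q * q ^ ((n + 1) * j)) * Wj n j := by
  rw [FP_W]
  generalize (poch q (q ^ (n + 1)) j / poch (q ^ (n + 1)) (q ^ (n + 1)) j) ^ (2 * (n + 1)) = R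
  have hq : (q : K) ≠ 0 := q_ne
  obtain ⟨m, rfl⟩ : ∃ m, n = m + 1 := ⟨n - 1, by omega⟩
  have e1 : ((m + 1) ^ 2 - 1) * j = (m + 1 + 1) * j * m := by
    have : (m + 1) ^ 2 - 1 = (m + 1 + 1) * m := by
      have h : (m + 1) ^ 2 = (m + 1 + 1) * m + 1 := by ring
      omega
    rw [this]; ring
  have e2 : (m + 1) * (m + 1 + 1) * j = (m + 1 + 1) * j * m + (m + 1 + 1) * j := by ring
  have e3 : 2 * (m + 1 + 1) * j + 1 = 1 + (m + 1 + 1) * j + (m + 1 + 1) * j := by ring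
  rw [e1, e2, e3, pow_add q ((m + 1 + 1) * j * m), pow_add q (1 + (m + 1 + 1) * j),
    pow_add q 1, pow_one]
  generalize q ^ ((m + 1 + 1) * j * m) = A
  have hB : q ^ ((m + 1 + 1) * j) ≠ 0 := pow_ne_zero _ hq
  generalize q ^ ((m + 1 + 1) * j) = B at hB
  field_simp

theorem FP_g (n j : ℕ) (he : ep n ≠ 0) : q ^ (n + 1) * ep n * (gj n (j + 1) - gj n j) =
    (1 - q ^ (n + 1)) *
      ((q ^ ((n + 1) * j))⁻¹ - q * (ep n ^ 2 * q ^ n) * q ^ ((n + 1) * j)) := by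
  unfold gj Y
  have hq : (q : K) ≠ 0 := q_ne
  have e1 : q ^ ((n + 1) * (j + 1)) = q ^ (n + 1) * q ^ ((n + 1) * j) := by
    rw [← pow_add]; congr 1; ring
  have e2 : q ^ (n + 1) = q * q ^ n := by rw [pow_succ']
  have hB : q ^ ((n + 1) * j) ≠ 0 := pow_ne_zero _ hq
  have hC : q ^ n ≠ 0 := pow_ne_zero _ hq
  rw [e1, e2]
  generalize q ^ ((n + 1) * j) = B at hB
  generalize q ^ n = C at hC
  field_simp
  ring

theorem tfp (h1 : T_EX) (h2 : T_UN) (_h3 : T_OM) : T_FP := by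
  intro n _ hn
  obtain ⟨-, hex⟩ := h1
  obtain ⟨_, _, _, hU, hE⟩ := hex n
  obtain ⟨_, _, _, _, _, _, hom, _, _⟩ := h2 n hn
  have hFF : (1 - q ^ (n + 1)) * FF n = ∑ j ∈ range n, (1 - q ^ (n + 1)) *
      ((q ^ ((n + 1) * j))⁻¹ - q * 1 * q ^ ((n + 1) * j)) * Wj n j := by
    unfold FF
    rw [mul_sum]
    refine sum_congr rfl fun j _ => ?_
    rw [FP_term n j hn]
    ring
  have hPh : q ^ (n + 1) * ep n * Ph n = ∑ j ∈ range n, (1 - q ^ (n + 1)) *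
      ((q ^ ((n + 1) * j))⁻¹ - q * (ep n ^ 2 * q ^ n) * q ^ ((n + 1) * j)) * Wj n j := by
    unfold Ph
    rw [mul_sum]
    refine sum_congr rfl fun j _ => ?_
    rw [← mul_assoc, FP_g n j hU.1]
  rw [hFF, hPh]
  refine EQ.sum fun j hj => ?_
  have hj' := mem_range.1 hj
  have hW : U n (Wj n j) := by
    unfold Wj
    refine U.prod fun i hi => ?_
    have := mem_range.1 hi
    exact hom i (by omega)
  have hQ : U n (q ^ (n + 1)) := U_qpow _
  have hB : U n (q ^ ((n + 1) * j)) := U_qpow _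
  have hq1 : U n q := by simpa using U_qpow (n := n) 1
  refine EQ.mul (EQ.mul (EQ.refl (sub_mem (one_mem _) hQ.2.1)) ?_) (EQ.refl hW.2.1)
  exact EQ.sub (EQ.refl hB.2.2) (EQ.mul (EQ.mul (EQ.refl hq1.2.1) hE.symm) (EQ.refl hB.2.1))

end Pool.Agent.R618.QP
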