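import Pool.Agent.R618.QP.Defs
import Pool.Agent.R618.SC.PSI

set_option autoImplicit false

/-!
HN: `H_(n-1)` modulo the square of `1 - q^n`.
-/

namespace Pool.Agent.R618.QP

open Finset Polynomial Pool.Agent.R439 Pool.Agent.R618.SC

namespace HN

variable {n : ℕ} [NeZero n]

theorem inv2 : (2 : K)⁻¹ ∈ O n := by
  have := natinv_mem (n := n) 2
  simpa using this

theorem two_mem : (2 : K) ∈ O n := by
  exact_mod_cast natCast_mem (O n) 2

theorem inv6 : (6 : K)⁻¹ ∈ O n := by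
  have := natinv_mem (n := n) 6
  simpa using this

theorem inv24 : (24 : K)⁻¹ ∈ O n := by
  have := natinv_mem (n := n) 24
  simpa using this

theorem n_mem : (n : K) ∈ O n := natCast_mem _ _

theorem ex_two {x : K} (hx : I n 1 x) : EQ n 2 (ex x) (1 + x) := by
  have hxO := hx.mem
  have h1 : I n 2 (ex x - (1 + x)) := by
    have e : ex x - (1 + x) = (x * x) * (2⁻¹ + x * 6⁻¹ + x ^ 2 * 24⁻¹) := by
      rw [ex]
      field_simp
      ring
    rw [e]
    exact (hx.mul hx).mulR (add_mem (add_mem inv2 (mul_mem hxO inv6))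
      (mul_mem (pow_mem hxO _) inv24))
  have h2 : 1 + x ∈ O n := add_mem (one_mem _) hxO
  refine ⟨?_, h2, h1⟩
  have := add_mem h1.mem h2
  simpa using this

theorem nhalf : (n : K) / 2 ∈ O n := by
  rw [div_eq_mul_inv]
  exact mul_mem n_mem inv2

/-- the first order coefficient -/
noncomputable def cc (n j : ℕ) : K := ((n : K) * j - n / 2) * tt n

theorem cc_I (h : T_EX) (j : ℕ) : I n 1 (cc n j) :=
  (h.2 n).1.mulL (sub_mem (mul_mem n_mem (natCast_mem _ _)) nhalf)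

theorem Y_two (h : T_EX) (j : ℕ) : EQ n 2 (Y n j) (q ^ j * (1 + cc n j)) := by
  obtain ⟨ht, _, hq, _, _⟩ := h.2 n
  have h1 : I n 1 (-((n : K) / 2) * tt n) := ht.mulL (neg_mem nhalf)
  have h2 : EQ n 2 (ep n) (1 + -((n : K) / 2) * tt n) := ex_two h1
  have h3 : I n 1 ((j : K) * n * tt n) := ht.mulL (mul_mem (natCast_mem _ _) n_mem)
  have h4 : EQ n 2 (q ^ (n * j)) (1 + (j : K) * n * tt n) :=
    ((hq j).mono (by norm_num)).trans (ex_two h3)
  have h5 := (h2.mul h4).mul (EQ.refl (n := n) (k := 2) (pow_mem' (n := n) j))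
  have e1 : Y n j = ep n * q ^ (n * j) * q ^ j := by
    rw [Y, add_mul, one_mul, pow_add]
    ring
  rw [e1]
  refine h5.trans ⟨h5.2.1, mul_mem (pow_mem' _) (add_mem (one_mem _) (cc_I h j).mem), ?_⟩
  have e2 : (1 + -((n : K) / 2) * tt n) * (1 + (j : K) * n * tt n) * q ^ j -
      q ^ j * (1 + cc n j) = q ^ j * ((-((n : K) / 2) * tt n) * ((j : K) * n * tt n)) := by
    rw [cc]
    ring
  rw [e2]
  exact (h1.mul h3).mulL (pow_mem' _)

theorem U1 {j : ℕ} (hj : 0 < j) (hjn : j < n) : U n (1 - q ^ j) := by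
  have h : ¬ (n : ℤ) ∣ (j : ℤ) := by
    intro hd
    have := Nat.le_of_dvd hj (Int.natCast_dvd_natCast.1 hd)
    omega
  have := U_one_sub (n := n) h
  rwa [zpow_natCast] at this

theorem hh_two (h : T_EX) (h2 : T_UN) (hn : 1 < n) {j : ℕ} (hj : 0 < j) (hjn : j < n) :
    I n 2 (hh n j - ((1 + q ^ j) / (1 - q ^ j) + 2 * cc n j * psi j)) := by
  have hy := (h2 n hn).2.1 j hj hjn
  have hx := U1 hj hjn
  have hc := cc_I (n := n) h j
  have he := (Y_two (n := n) h j).2.2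
  have hq : q ^ j ∈ O n := pow_mem' _
  have h1 : I n 1 (Y n j - q ^ j) := by
    have e : Y n j - q ^ j = (Y n j - q ^ j * (1 + cc n j)) + q ^ j * cc n j := by ring
    rw [e]
    exact (he.mono one_le_two).add (hc.mulL hq)
  have e : hh n j - ((1 + q ^ j) / (1 - q ^ j) + 2 * cc n j * psi j) =
      2 * ((Y n j - q ^ j * (1 + cc n j)) * (1 - q ^ j) +
        (q ^ j * cc n j) * (Y n j - q ^ j)) * ((1 - Y n j)⁻¹ * (1 - q ^ j)⁻¹ ^ 2) := by
    rw [hh, psi]
    have a1 := hy.1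
    have a2 := hx.1
    generalize Y n j = y at a1 ⊢
    generalize q ^ j = x at a2 ⊢
    generalize cc n j = c
    field_simp
    ring
  rw [e]
  refine I.mulR (I.mulL two_mem (I.add (he.mulR hx.2.1) ?_)) (mul_mem hy.2.2 (pow_mem hx.2.2 _))
  exact (hc.mulL hq).mul h1

theorem h0_refl (h : T_EX) {j : ℕ} (hj : 0 < j) (hjn : j < n) :
    I n 2 ((1 + q ^ j) / (1 - q ^ j) + (1 + q ^ (n - j)) / (1 - q ^ (n - j)) -
      2 * (n * tt n) * psi j) := by
  obtain ⟨ht, hw, _, _, _⟩ := h.2 n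
  have hx := U1 hj hjn
  have hz := U1 (n := n) (j := n - j) (by omega) (by omega)
  have hxz : q ^ j * q ^ (n - j) = 1 - w n := by
    rw [← pow_add, w]
    have : j + (n - j) = n := by omega
    rw [this]
    ring
  have hN : I n 1 ((n : K) * tt n) := ht.mulL n_mem
  have e : (1 + q ^ j) / (1 - q ^ j) + (1 + q ^ (n - j)) / (1 - q ^ (n - j)) -
      2 * (n * tt n) * psi j =
      2 * ((w n + n * tt n) * (1 - q ^ j) - (n * tt n) * w n) *
        ((1 - q ^ j)⁻¹ ^ 2 * (1 - q ^ (n - j))⁻¹) := by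
    rw [psi]
    have a1 := hz.1
    have a2 := hx.1
    have e3 : w n = 1 - q ^ j * q ^ (n - j) := by rw [hxz]; ring
    rw [e3]
    generalize q ^ (n - j) = z at a1 ⊢
    generalize q ^ j = x at a2 ⊢
    generalize (n : K) * tt n = N
    field_simp
    ring
  rw [e]
  exact I.mulR (I.mulL two_mem ((hw.mulR hx.2.1).sub (hN.mul I_w)))
    (mul_mem (pow_mem hx.2.2 _) hz.2.2)

theorem psi_mem {j : ℕ} (hj : 0 < j) (hjn : j < n) : psi j ∈ O n := by
  rw [psi, div_eq_mul_inv, ← inv_pow]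
  exact mul_mem (pow_mem' _) (pow_mem (U1 hj hjn).2.2 _)

theorem psi_refl {j : ℕ} (hj : 0 < j) (hjn : j < n) : I n 1 (psi (n - j) - psi j) := by
  have hx := U1 hj hjn
  have hz := U1 (n := n) (j := n - j) (by omega) (by omega)
  have hxz : q ^ j * q ^ (n - j) = 1 - w n := by
    rw [← pow_add, w]
    have : j + (n - j) = n := by omega
    rw [this]
    ring
  have e : psi (n - j) - psi j = (q ^ (n - j) - q ^ j) * w n *
      ((1 - q ^ j)⁻¹ ^ 2 * (1 - q ^ (n - j))⁻¹ ^ 2) := by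
    rw [psi, psi]
    have a1 := hz.1
    have a2 := hx.1
    have e3 : w n = 1 - q ^ j * q ^ (n - j) := by rw [hxz]; ring
    rw [e3]
    generalize q ^ (n - j) = z at a1 ⊢
    generalize q ^ j = x at a2 ⊢
    field_simp
    ring
  rw [e]
  exact (I_w.mulL (sub_mem (pow_mem' _) (pow_mem' _))).mulR
    (mul_mem (pow_mem hx.2.2 _) (pow_mem hz.2.2 _))

omit [NeZero n] in
theorem refl_sum (f : ℕ → K) : ∑ j ∈ Ico 1 n, f (n - j) = ∑ j ∈ Ico 1 n, f j := by
  have := Finset.sum_Ico_reflect f 1 (m := n) (n := n) (Nat.le_succ n)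
  rw [this]
  congr 2
  omega

end HN

open HN in
/-- **HN.** -/
theorem thn (h : T_EX) (h2 : T_UN) : T_HN := by
  intro n _ hn
  obtain ⟨ht, hw, _, _, _⟩ := h.2 n
  have hIco : ∀ j ∈ Ico 1 n, 0 < j ∧ j < n := fun j hj => by rw [mem_Ico] at hj; omega
  have e0 : HH n (n - 1) = ∑ j ∈ Ico 1 n, hh n j := by
    rw [HH, Finset.sum_Ico_eq_sum_range]
    exact sum_congr rfl fun i _ => by rw [add_comm]
  obtain ⟨P, hP⟩ : ∃ P, P = ∑ j ∈ Ico 1 n, psi j := ⟨_, rfl⟩
  obtain ⟨P1, hP1⟩ : ∃ P1, P1 = ∑ j ∈ Ico 1 n, (j : K) * psi j := ⟨_, rfl⟩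
  obtain ⟨H0, hH0⟩ : ∃ H0, H0 = ∑ j ∈ Ico 1 n, (1 + q ^ j) / (1 - q ^ j) := ⟨_, rfl⟩
  -- step A
  have hA : I n 2 (HH n (n - 1) - (H0 + 2 * ((n : K) * P1 - n / 2 * P) * tt n)) := by
    have e : HH n (n - 1) - (H0 + 2 * ((n : K) * P1 - n / 2 * P) * tt n) =
        ∑ j ∈ Ico 1 n, (hh n j - ((1 + q ^ j) / (1 - q ^ j) + 2 * cc n j * psi j)) := by
      rw [sum_sub_distrib, sum_add_distrib, ← hH0, ← e0]
      have e1 : ∑ j ∈ Ico 1 n, 2 * cc n j * psi j =
          2 * ((n : K) * P1 - n / 2 * P) * tt n := by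
        rw [hP1, hP, mul_sum, mul_sum, ← sum_sub_distrib, mul_sum, sum_mul]
        exact sum_congr rfl fun j _ => by rw [cc]; ring
      rw [e1]
    rw [e]
    exact I.sum fun j hj => hh_two h h2 hn (hIco j hj).1 (hIco j hj).2
  -- step B
  have hB : I n 2 (H0 - n * tt n * P) := by
    have e : 2 * (H0 - n * tt n * P) = ∑ j ∈ Ico 1 n, ((1 + q ^ j) / (1 - q ^ j) +
        (1 + q ^ (n - j)) / (1 - q ^ (n - j)) - 2 * (n * tt n) * psi j) := by
      rw [sum_sub_distrib, sum_add_distrib, ← hH0,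
        refl_sum (n := n) (fun j => (1 + q ^ j) / (1 - q ^ j)), ← hH0, ← mul_sum, ← hP]
      ring
    have h3 : I n 2 (2 * (H0 - n * tt n * P)) := by
      rw [e]
      exact I.sum fun j hj => h0_refl h (hIco j hj).1 (hIco j hj).2
    exact I.cancel two_ne_zero inv2 h3
  -- step C
  have hC : I n 1 (P1 - n / 2 * P) := by
    have e : -2 * (P1 - n / 2 * P) = ∑ j ∈ Ico 1 n, ((n - j : ℕ) : K) * (psi j - psi (n - j)) := by
      have e1 : ∑ j ∈ Ico 1 n, ((n - j : ℕ) : K) * psi (n - j) = P1 := by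
        rw [hP1]
        exact refl_sum (n := n) (fun j => (j : K) * psi j)
      have e2 : ∑ j ∈ Ico 1 n, ((n - j : ℕ) : K) * psi j = n * P - P1 := by
        rw [hP, hP1, mul_sum, ← sum_sub_distrib]
        refine sum_congr rfl fun j hj => ?_
        rw [Nat.cast_sub (hIco j hj).2.le]
        ring
      have e3 : ∑ j ∈ Ico 1 n, ((n - j : ℕ) : K) * (psi j - psi (n - j)) =
          ∑ j ∈ Ico 1 n, ((n - j : ℕ) : K) * psi j -
            ∑ j ∈ Ico 1 n, ((n - j : ℕ) : K) * psi (n - j) := by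
        rw [← sum_sub_distrib]
        exact sum_congr rfl fun j _ => by ring
      rw [e3, e1, e2]
      ring
    have h3 : I n 1 (-2 * (P1 - n / 2 * P)) := by
      rw [e]
      refine I.sum fun j hj => I.mulL (natCast_mem _ _) ?_
      exact (psi_refl (hIco j hj).1 (hIco j hj).2).symm
    refine I.cancel (x := -2) (by norm_num) ?_ h3
    rw [inv_neg]
    exact neg_mem inv2
  -- step D
  have hD : I n 1 (P - Psi n) := by
    have h3 : I n 1 (∑ j ∈ Ico 1 n, psi j + ((n : K) ^ 2 - 1) / 12) :=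
      (J_nat_iff (d := n) (m := 1)).1 (by rw [Nat.cast_one]; exact psi_ n)
    have e : P - Psi n = ∑ j ∈ Ico 1 n, psi j + ((n : K) ^ 2 - 1) / 12 := by
      rw [hP, Psi]
      ring
    rw [e]
    exact h3
  have hfin : HH n (n - 1) - 2 * sig n * Psi n =
      (HH n (n - 1) - (H0 + 2 * ((n : K) * P1 - n / 2 * P) * tt n)) + (H0 - n * tt n * P) +
        (2 * n * ((P1 - n / 2 * P) * tt n)) + (n : K) ^ 2 * ((P - Psi n) * tt n) := by
    rw [sig]
    ring
  rw [hfin]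
  have m1 : (2 : K) * n ∈ O n := mul_mem two_mem n_mem
  have m2 : (n : K) ^ 2 ∈ O n := pow_mem n_mem _
  exact ((hA.add hB).add ((hC.mul ht).mulL m1)).add ((hD.mul ht).mulL m2)

end Pool.Agent.R618.QP

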