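import Pool.Agent.R618.QP.Defs

set_option autoImplicit false

/-!
Last steps for MP_9fe52c_nt.
-/

namespace Pool.Agent.R618.QP

open Finset Polynomial Pool.Agent.R439 Pool.Agent.R618.SC

theorem main_q1 : (1 - q : K) ≠ 0 := by
  have := one_sub_pow_ne (j := 1) one_ne_zero
  rwa [pow_one] at this

/-- the constant `c_n` -/
noncomputable def mcc (n : ℕ) : K := (n : K) * (n - 1) * (n + 1) ^ 2 * (2 * n + 1) / 72

theorem main_U1 {n : ℕ} [NeZero n] (hn : 1 < n) : U n (1 - q : K) := by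
  have := U_one_sub (n := n) (e := 1) (by
    intro h
    have h1 : n ∣ 1 := by exact_mod_cast h
    have h2 := Nat.le_of_dvd one_pos h1
    omega)
  rwa [zpow_one] at this

theorem main_UQ {n : ℕ} [NeZero n] (hn : 1 < n) : U n (1 - q ^ (n + 1) : K) := by
  have := U_one_sub (n := n) (e := ((n + 1 : ℕ) : ℤ)) (by
    intro h
    have h1 : n ∣ n + 1 := by exact_mod_cast h
    have h2 : n ∣ 1 := (Nat.dvd_add_right dvd_rfl).1 h1
    have h3 := Nat.le_of_dvd one_pos h2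
    omega)
  rwa [zpow_natCast] at this

theorem main_n {n : ℕ} [NeZero n] : U n ((n : ℕ) : K) := by
  have := U_rat (n := n) (c := (n : ℚ)) (by exact_mod_cast NeZero.ne n)
  simpa using this

theorem main_val (n : ℕ) :
    Psi n * sig n * (2 * EE n * sig n ^ 2 + EE n ^ 3 / 6 + 2 / 3 * kap n) =
      -(mcc n * n ^ 5) * tt n ^ 4 := by
  rw [Psi, sig, EE, kap, mcc]
  ring

/-- `ε ≡ 1` modulo `w` -/
theorem main_ep {n : ℕ} [NeZero n] (h1 : T_EX) : EQ n 1 (ep n) 1 := by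
  have ht := (h1.2 n).1
  obtain ⟨t', ht', hte⟩ := ht
  rw [pow_one] at hte
  have hx : ∀ x : K, I n 1 x → EQ n 1 (ex x) 1 := by
    intro x hx
    have hxm := hx.mem
    refine ⟨?_, one_mem _, ?_⟩
    · rw [ex]
      have m2 : (2 : K)⁻¹ ∈ O n := by exact_mod_cast natinv_mem (n := n) 2
      have m6 : (6 : K)⁻¹ ∈ O n := by exact_mod_cast natinv_mem (n := n) 6
      have m24 : (24 : K)⁻¹ ∈ O n := by exact_mod_cast natinv_mem (n := n) 24
      rw [div_eq_mul_inv, div_eq_mul_inv, div_eq_mul_inv]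
      exact add_mem (add_mem (add_mem (add_mem (one_mem _) hxm) (mul_mem (pow_mem hxm _) m2))
        (mul_mem (pow_mem hxm _) m6)) (mul_mem (pow_mem hxm _) m24)
    · have m2 : (2 : K)⁻¹ ∈ O n := by exact_mod_cast natinv_mem (n := n) 2
      have m6 : (6 : K)⁻¹ ∈ O n := by exact_mod_cast natinv_mem (n := n) 6
      have m24 : (24 : K)⁻¹ ∈ O n := by exact_mod_cast natinv_mem (n := n) 24
      have : ex x - 1 = x * (1 + x * 2⁻¹ + x ^ 2 * 6⁻¹ + x ^ 3 * 24⁻¹) := by rw [ex]; ring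
      rw [this]
      exact hx.mulR (add_mem (add_mem (add_mem (one_mem _) (mul_mem hxm m2))
        (mul_mem (pow_mem hxm _) m6)) (mul_mem (pow_mem hxm _) m24))
  refine hx _ ?_
  have m2 : (2 : K)⁻¹ ∈ O n := by exact_mod_cast natinv_mem (n := n) 2
  refine (h1.2 n).1.mulL ?_
  rw [div_eq_mul_inv]
  exact neg_mem (mul_mem (natCast_mem _ _) m2)

theorem main {n : ℕ} [NeZero n] (hn : 1 < n) (h1 : T_EX) (h4 : T_PHI) (h5 : T_FP) :
    I n 5 (FF n / (1 - q) + mcc n * q * (1 - q) ^ 2 * ((1 - q ^ n) / (1 - q)) ^ 4 *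
      ((1 - q ^ (n ^ 2)) / (1 - q ^ n))) := by
  have hq1 := main_U1 hn
  have hQ := main_UQ hn
  have hnU := main_n (n := n)
  obtain ⟨t', ht', hte⟩ := (h1.2 n).1
  rw [pow_one] at hte
  have hwn := (h1.2 n).2.1
  have hw0 := w_ne (n := n)
  -- t' ≡ -1/n
  have ht1 : EQ n 1 t' (-(n : K)⁻¹) := by
    have e1 : w n + n * tt n = w n * (1 + n * t') := by rw [hte]; ring
    rw [e1] at hwn
    have e2 : I n 1 (1 + n * t') := I_w_mul_iff.1 hwn
    refine ⟨ht', neg_mem hnU.2.2, ?_⟩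
    have e3 : t' - -(n : K)⁻¹ = (n : K)⁻¹ * (1 + n * t') := by
      have := hnU.1
      field_simp
      ring
    rw [e3]
    exact e2.mulL hnU.2.2
  have hcc : mcc n ∈ O n := by
    rw [mcc, div_eq_mul_inv]
    have m72 : (72 : K)⁻¹ ∈ O n := by exact_mod_cast natinv_mem (n := n) 72
    have mn : (n : K) ∈ O n := natCast_mem _ _
    exact mul_mem (mul_mem (mul_mem (mul_mem mn (sub_mem mn (one_mem _)))
      (pow_mem (add_mem mn (one_mem _)) _)) (add_mem (mul_mem (by exact_mod_cast natCast_mem (O n) 2) mn)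
        (one_mem _))) m72
  have hep := main_ep (n := n) h1
  -- (1-Q) FF ≡ - Q ε c n^5 t^4
  have hP := h4 n hn
  rw [main_val] at hP
  have hF := h5 n hn
  have hF2 : EQ n 5 ((1 - q ^ (n + 1)) * FF n)
      (q ^ (n + 1) * ep n * (-(mcc n * n ^ 5) * tt n ^ 4)) :=
    hF.trans ((EQ.refl (mul_mem (pow_mem' _) hep.1)).mul hP)
  obtain ⟨r, hr, hre⟩ := hF2.2.2
  -- FF = w^4 F'
  have hFF : FF n = w n ^ 4 * ((1 - q ^ (n + 1))⁻¹ *
      (q ^ (n + 1) * ep n * (-(mcc n * n ^ 5) * t' ^ 4) + w n * r)) := by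
    have hQ0 := hQ.1
    have e : (1 - q ^ (n + 1)) * FF n = w n ^ 4 *
      (q ^ (n + 1) * ep n * (-(mcc n * n ^ 5) * t' ^ 4) + w n * r) := by
      have : (1 - q ^ (n + 1)) * FF n = (q ^ (n + 1) * ep n * (-(mcc n * n ^ 5) * tt n ^ 4)) +
        w n ^ 5 * r := by rw [← hre]; ring
      rw [this, hte]; ring
    rw [← mul_assoc, mul_comm (w n ^ 4), mul_assoc, ← e, ← mul_assoc, inv_mul_cancel₀ hQ0, one_mul]
  have hphi : (1 - q ^ (n ^ 2)) / (1 - q ^ n) = qi n n := by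
    rw [qi, w]; congr 2
    rw [← zpow_natCast]; congr 1; push_cast; ring
  have hbr : (1 - q ^ n : K) = w n := rfl
  rw [hphi, hFF, hbr]
  have hfac : w n ^ 4 * ((1 - q ^ (n + 1))⁻¹ *
      (q ^ (n + 1) * ep n * (-(mcc n * n ^ 5) * t' ^ 4) + w n * r)) / (1 - q) +
      mcc n * q * (1 - q) ^ 2 * (w n / (1 - q)) ^ 4 * qi n n =
      w n ^ 4 * ((1 - q ^ (n + 1))⁻¹ *
      (q ^ (n + 1) * ep n * (-(mcc n * n ^ 5) * t' ^ 4) + w n * r) * (1 - q)⁻¹ +
      mcc n * q * ((1 - q)⁻¹) ^ 2 * qi n n) := by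
    have := hq1.1
    field_simp
  rw [hfac]
  have hI : I n 1 ((1 - q ^ (n + 1))⁻¹ *
      (q ^ (n + 1) * ep n * (-(mcc n * n ^ 5) * t' ^ 4) + w n * r) * (1 - q)⁻¹ +
      mcc n * q * ((1 - q)⁻¹) ^ 2 * qi n n) := by
    have hqn : EQ n 1 (q ^ (n + 1) : K) q := by
      have h := q_shift (n := n) 1 1
      rw [mul_one] at h
      have e1 : q ^ ((1 : ℤ) + (n : ℤ)) = q ^ (n + 1) := by
        rw [← zpow_natCast]; congr 1; push_cast; ring
      rw [e1, zpow_one] at h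
      exact h
    have hmq : (q : K) ∈ O n := q_mem
    have hw1 : EQ n 1 (w n * r) 0 := EQ.of_I (I_w.mulR hr)
    have mn : (n : K) ∈ O n := natCast_mem _ _
    have hinner : EQ n 1 (q ^ (n + 1) * ep n * (-(mcc n * n ^ 5) * t' ^ 4) + w n * r)
        (q * 1 * (-(mcc n * n ^ 5) * (-(n : K)⁻¹) ^ 4) + 0) :=
      ((hqn.mul hep).mul ((EQ.refl (neg_mem (mul_mem hcc (pow_mem mn _)))).mul (ht1.pow 4))).add hw1
    have hinv : EQ n 1 ((1 - q ^ (n + 1))⁻¹) ((1 - q : K)⁻¹) :=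
      ((EQ.refl (one_mem _)).sub hqn).inv one_pos hQ
    have htot := ((hinv.mul hinner).mul (EQ.refl (n := n) (k := 1) hq1.2.2)).add
      ((EQ.refl (mul_mem (mul_mem hcc hmq) (pow_mem hq1.2.2 2))).mul (qi_eq (n := n) (n : ℤ)))
    have hz : (1 - q : K)⁻¹ * (q * 1 * (-(mcc n * n ^ 5) * (-(n : K)⁻¹) ^ 4) + 0) * (1 - q : K)⁻¹ +
        mcc n * q * ((1 - q : K)⁻¹) ^ 2 * (((n : ℤ) : K)) = 0 := by
      have h0 := hnU.1
      have h1 := hq1.1
      push_cast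
      field_simp
      ring
    rw [hz] at htot
    have := htot.2.2
    rwa [sub_zero] at this
  obtain ⟨y, hy, hye⟩ := hI
  exact ⟨y, hy, by rw [hye]; ring⟩

end Pool.Agent.R618.QP
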