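import Pool.Agent.R618.QP.Defs

set_option autoImplicit false

/-!
OM: expansion of `ω` and of `W`.
-/

namespace Pool.Agent.R618.QP

open Finset Polynomial Pool.Agent.R439 Pool.Agent.R618.SC

section
variable {n : ℕ} [NeZero n]

/-- the quotient polynomial -/
noncomputable def OM_R (d v : K) : K :=
    54 - 288 * v + 630 * v ^ 2 - 756 * v ^ 3 + 504 * v ^ 4 - 144 * v ^ 5 - 42 * d + 234 * d *
    v - 510 * d * v ^ 2 + 462 * d * v ^ 3 - 24 * d * v ^ 4 - 216 * d * v ^ 5 + 96 * d * v ^ 6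
    + 12 * d ^ 2 - 69 * d ^ 2 * v + 180 * d ^ 2 * v ^ 2 - 345 * d ^ 2 * v ^ 3 + 558 * d ^ 2 *
    v ^ 4 - 624 * d ^ 2 * v ^ 5 + 384 * d ^ 2 * v ^ 6 - 96 * d ^ 2 * v ^ 7 - 6 * d ^ 3 + 12 *
    d ^ 3 * v + 102 * d ^ 3 * v ^ 2 - 558 * d ^ 3 * v ^ 3 + 1272 * d ^ 3 * v ^ 4 - 1638 * d ^
    3 * v ^ 5 + 1248 * d ^ 3 * v ^ 6 - 528 * d ^ 3 * v ^ 7 + 96 * d ^ 3 * v ^ 8 + 14 * d ^ 4 *
    v - 116 * d ^ 4 * v ^ 2 + 412 * d ^ 4 * v ^ 3 - 816 * d ^ 4 * v ^ 4 + 974 * d ^ 4 * v ^ 5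
    - 700 * d ^ 4 * v ^ 6 + 280 * d ^ 4 * v ^ 7 - 48 * d ^ 4 * v ^ 8 - 4 * d ^ 5 * v + 36 * d
    ^ 5 * v ^ 2 - 136 * d ^ 5 * v ^ 3 + 280 * d ^ 5 * v ^ 4 - 340 * d ^ 5 * v ^ 5 + 244 * d ^
    5 * v ^ 6 - 96 * d ^ 5 * v ^ 7 + 16 * d ^ 5 * v ^ 8 + 2 * d ^ 6 * v - 16 * d ^ 6 * v ^ 2 +
    54 * d ^ 6 * v ^ 3 - 100 * d ^ 6 * v ^ 4 + 110 * d ^ 6 * v ^ 5 - 72 * d ^ 6 * v ^ 6 + 26 *
    d ^ 6 * v ^ 7 - 4 * d ^ 6 * v ^ 8

theorem OM_num (c : ℕ) [c.AtLeastTwo] : (OfNat.ofNat c : K) ∈ O n := ofNat_mem _ _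

theorem OM_R_mem {d v : K} (hd : d ∈ O n) (hv : v ∈ O n) : OM_R d v ∈ O n := by
  unfold OM_R
  repeat' first
    | exact hd
    | exact hv
    | exact one_mem _
    | exact OM_num _
    | apply add_mem
    | apply sub_mem
    | apply mul_mem
    | apply pow_mem

theorem OM_claim {d v : K} (hd : I n 1 d) (hv : v ∈ O n) :
    I n 5 ((v - (v - 1) * ex d) - (v - (v - 1) * ex (-d)) *
      (ex (d * (2 - 2 * v)) * (1 + d ^ 3 * (-((2 * v - 1) * v * (v - 1))) / 3))) := by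
  have h216 : U n ((216 : ℚ) : K) := U_rat (by norm_num)
  apply I.cancel h216.1 h216.2.2
  have h1 : ((216 : ℚ) : K) = 216 := by norm_cast
  rw [h1]
  have h2 : (216 : K) * ((v - (v - 1) * ex d) - (v - (v - 1) * ex (-d)) *
      (ex (d * (2 - 2 * v)) * (1 + d ^ 3 * (-((2 * v - 1) * v * (v - 1))) / 3))) =
      d * d * d * d * d * OM_R d v := by
    unfold ex OM_R
    field_simp
    ring
  rw [h2]
  have h3 : I n 5 (d * d * d * d * d) := (((hd.mul hd).mul hd).mul hd).mul hd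
  exact h3.mulR (OM_R_mem hd.mem hv)

theorem OM_ex_mem {x : K} (hx : x ∈ O n) : ex x ∈ O n := by
  have h : ex x = 1 + x + x ^ 2 * ((1 / 2 : ℚ) : K) + x ^ 3 * ((1 / 6 : ℚ) : K) +
      x ^ 4 * ((1 / 24 : ℚ) : K) := by
    unfold ex
    push_cast
    ring
  rw [h]
  exact add_mem (add_mem (add_mem (add_mem (one_mem _) hx) (mul_mem (pow_mem hx _) (rat_mem _)))
    (mul_mem (pow_mem hx _) (rat_mem _))) (mul_mem (pow_mem hx _) (rat_mem _))

theorem OM_ex_pow (h : T_EX) {x : K} (hx : I n 1 x) (k : ℕ) :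
    EQ n 5 (ex x ^ k) (ex ((k : K) * x)) := by
  induction k with
  | zero =>
    have : ex ((0 : ℕ) * x) = 1 := by unfold ex; push_cast; ring
    rw [pow_zero, this]
    exact EQ.refl (one_mem _)
  | succ k ih =>
    have h1 : I n 1 ((k : K) * x) := hx.mulL (natCast_mem _ _)
    have h2 := (h.1 n ((k : K) * x) x h1 hx).symm
    have h3 : ((k + 1 : ℕ) : K) * x = (k : K) * x + x := by push_cast; ring
    rw [pow_succ, h3]
    exact (ih.mul (EQ.refl (OM_ex_mem hx.mem))).trans h2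

end

theorem tom (hEX : T_EX) (hUN : T_UN) : T_OM := by
  intro n _ hn
  obtain ⟨hex, hEX2⟩ := hEX
  obtain ⟨ht, -, hqk, hep, hep2⟩ := hEX2 n
  obtain ⟨hY, hY1, hhO, hgO, hHO, hLaO, hom, heta, hGn⟩ := hUN n hn
  have hn0 : (n : K) ≠ 0 := by exact_mod_cast (NeZero.ne n)
  set t := tt n with htd
  set δ : K := -((n : K) / 2) * t with hδd
  have hδ : I n 1 δ := by
    have h1 : δ = ((-(n : ℚ) / 2 : ℚ) : K) * t := by
      rw [hδd]; push_cast; ring
    rw [h1]
    exact ht.mulL (rat_mem _)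
  have hepδ : ep n = ex δ := rfl
  have hepi : EQ n 5 (ep n)⁻¹ (ex (-δ)) := by
    have h1 := hex n δ (-δ) hδ hδ.neg
    have h0 : ex (δ + -δ) = 1 := by unfold ex; ring
    rw [h0, ← hepδ] at h1
    have h2 := (EQ.refl hep.2.2 : EQ n 5 (ep n)⁻¹ (ep n)⁻¹).mul h1
    have h3 : (ep n)⁻¹ * (ep n * ex (-δ)) = ex (-δ) := by
      rw [← mul_assoc, inv_mul_cancel₀ hep.1, one_mul]
    rw [h3, mul_one] at h2
    exact h2
  -- one factor
  have hone : ∀ i, i + 1 < n →
      EQ n 5 (om n i) (ex (EE n * hh n (i + 1) + kap n / 3 * Lm n (i + 1))) := by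
    intro i hi
    have uY := hY (i + 1)
    have uY1 := hY1 (i + 1) (by omega) hi
    set y := Y n (i + 1) with hyd
    obtain ⟨v, hv⟩ : ∃ v, v = (1 - y)⁻¹ := ⟨_, rfl⟩
    have hvO : v ∈ O n := by rw [hv]; exact uY1.2.2
    have hv1 : (1 - y) * v = 1 := by rw [hv]; exact mul_inv_cancel₀ uY1.1
    have hhv : hh n (i + 1) = 2 * v - 1 := by
      have : hh n (i + 1) = (1 + y) * v := by
        rw [hv, hyd]; unfold hh; rw [div_eq_mul_inv]
      rw [this]
      linear_combination (-1) * hv1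
    have hLv : Lm n (i + 1) = -((2 * v - 1) * v * (v - 1)) := by
      unfold Lm
      rw [hhv]
      field_simp
      ring
    have hqn : q ^ n ≠ 0 := pow_ne_zero _ q_ne
    have uqn : U n (q ^ n) := U_qpow n
    -- the denominator
    have hx2 : 1 - q ^ ((n + 1) * (i + 1)) = 1 - y * (ep n)⁻¹ := by
      rw [hyd]; unfold Y
      have := hep.1
      field_simp
    have ux2 : U n (1 - q ^ ((n + 1) * (i + 1))) := by
      have h1 := U_one_sub (n := n) (e := (((n + 1) * (i + 1) : ℕ) : ℤ)) (by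
        intro h
        have h2 : n ∣ (n + 1) * (i + 1) := by exact_mod_cast h
        have h3 : n ∣ (i + 1) := by
          have h4 : (n + 1) * (i + 1) = n * (i + 1) + (i + 1) := by ring
          rw [h4] at h2
          exact (Nat.dvd_add_right (Dvd.intro _ rfl)).mp h2
        have := Nat.le_of_dvd (by omega) h3
        omega)
      rwa [zpow_natCast] at h1
    have e2 : EQ n 5 (1 - q ^ ((n + 1) * (i + 1))) (1 - y * ex (-δ)) := by
      rw [hx2]
      exact (EQ.refl (one_mem _)).sub ((EQ.refl uY.2.1).mul hepi)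
    -- the numerator
    have e1 : EQ n 5 (1 - q ^ ((n + 1) * i + 1)) (1 - y * ex δ) := by
      apply (EQ.refl (one_mem _)).sub
      refine ⟨pow_mem' _, mul_mem uY.2.1 (OM_ex_mem hδ.mem), ?_⟩
      apply I.cancel uqn.1 uqn.2.2
      have h1 : q ^ n * q ^ ((n + 1) * i + 1) = y * (ep n)⁻¹ := by
        rw [hyd]; unfold Y
        have := hep.1
        rw [← pow_add]
        have h5 : n + ((n + 1) * i + 1) = (n + 1) * (i + 1) := by ring
        rw [h5]
        field_simp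
      have h2 : q ^ n * (q ^ ((n + 1) * i + 1) - y * ex δ) =
          (y * (ep n)⁻¹) * (-(ep n ^ 2 * q ^ n - 1)) := by
        rw [mul_sub, h1, ← hepδ]
        have := hep.1
        field_simp
        ring
      rw [h2]
      exact (hep2.2.2.neg).mulL (mul_mem uY.2.1 hep.2.2)
    set A : K := δ * (2 - 2 * v) + δ ^ 3 * (-((2 * v - 1) * v * (v - 1))) / 3 with hA
    have hA1 : I n 1 (δ * (2 - 2 * v)) :=
      hδ.mulR (sub_mem (OM_num 2) (mul_mem (OM_num 2) hvO))
    have hB3 : I n 3 (δ ^ 3 * (-((2 * v - 1) * v * (v - 1))) / 3) := by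
      have h1 : δ ^ 3 * (-((2 * v - 1) * v * (v - 1))) / 3 = δ * δ * δ *
          ((((1 / 3 : ℚ)) : K) * (-((2 * v - 1) * v * (v - 1)))) := by
        push_cast; ring
      rw [h1]
      apply ((hδ.mul hδ).mul hδ).mulR
      exact mul_mem (rat_mem _) (neg_mem (mul_mem (mul_mem (sub_mem (mul_mem (OM_num 2) hvO)
        (one_mem _)) hvO) (sub_mem hvO (one_mem _))))
    have hAI : I n 1 A := hA1.add (hB3.mono (by norm_num))
    have hexB : EQ n 5 (ex (δ ^ 3 * (-((2 * v - 1) * v * (v - 1))) / 3))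
        (1 + δ ^ 3 * (-((2 * v - 1) * v * (v - 1))) / 3) := by
      set B := δ ^ 3 * (-((2 * v - 1) * v * (v - 1))) / 3
      refine ⟨OM_ex_mem hB3.mem, add_mem (one_mem _) hB3.mem, ?_⟩
      have h1 : ex B - (1 + B) = B * B * (((1 / 2 : ℚ) : K) + B * ((1 / 6 : ℚ) : K) +
          B ^ 2 * ((1 / 24 : ℚ) : K)) := by
        unfold ex; push_cast; ring
      rw [h1]
      apply I.mulR ((hB3.mul hB3).mono (by norm_num))
      exact add_mem (add_mem (rat_mem _) (mul_mem hB3.mem (rat_mem _)))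
        (mul_mem (pow_mem hB3.mem _) (rat_mem _))
    have hexA : EQ n 5 (ex A) (ex (δ * (2 - 2 * v)) *
        (1 + δ ^ 3 * (-((2 * v - 1) * v * (v - 1))) / 3)) :=
      (hex n _ _ hA1 (hB3.mono (by norm_num))).trans
        ((EQ.refl (OM_ex_mem hA1.mem)).mul hexB)
    have hcl := OM_claim hδ hvO
    -- x1 ≡ x2 * ex A
    have e3 : EQ n 5 (1 - y * ex δ) ((1 - y * ex (-δ)) * ex A) := by
      have h1 : 1 - y * ex δ = (1 - y) * (v - (v - 1) * ex δ) := by
        linear_combination (-1 + ex δ) * hv1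
      have h2 : 1 - y * ex (-δ) = (1 - y) * (v - (v - 1) * ex (-δ)) := by
        linear_combination (-1 + ex (-δ)) * hv1
      rw [h1, h2, mul_assoc]
      apply (EQ.refl uY1.2.1).mul
      have m1 : ∀ d : K, d ∈ O n → v - (v - 1) * ex d ∈ O n := fun d hd =>
        sub_mem hvO (mul_mem (sub_mem hvO (one_mem _)) (OM_ex_mem hd))
      have h3 : EQ n 5 (v - (v - 1) * ex δ) ((v - (v - 1) * ex (-δ)) *
          (ex (δ * (2 - 2 * v)) * (1 + δ ^ 3 * (-((2 * v - 1) * v * (v - 1))) / 3))) :=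
        ⟨m1 _ hδ.mem, mul_mem (m1 _ (neg_mem hδ.mem)) hexA.2.1, hcl⟩
      exact h3.trans ((EQ.refl (m1 _ (neg_mem hδ.mem))).mul hexA.symm)
    have e4 : EQ n 5 ((1 - q ^ ((n + 1) * i + 1)) / (1 - q ^ ((n + 1) * (i + 1)))) (ex A) := by
      have h1 : EQ n 5 (1 - q ^ ((n + 1) * i + 1)) ((1 - q ^ ((n + 1) * (i + 1))) * ex A) :=
        (e1.trans e3).trans (e2.symm.mul (EQ.refl (OM_ex_mem hAI.mem)))
      have h2 := h1.div (by norm_num) (EQ.refl ux2.2.1 : EQ n 5 (1 - q ^ ((n + 1) * (i + 1)))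
        (1 - q ^ ((n + 1) * (i + 1)))) ux2
      have h3 : (1 - q ^ ((n + 1) * (i + 1))) * ex A / (1 - q ^ ((n + 1) * (i + 1))) = ex A := by
        rw [mul_comm, mul_div_assoc, div_self ux2.1, mul_one]
      rw [h3] at h2
      exact h2
    have e5 : EQ n 5 (om n i) (ex (EE n) * ex (((2 * (n + 1) : ℕ) : K) * A)) := by
      unfold om
      apply EQ.mul
      · have h1 := hqk (n + 1)
        have h2 : ((n + 1 : ℕ) : K) * n * t = EE n := by
          unfold EE; rw [← htd]; push_cast; ring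
        rw [h2] at h1
        exact h1
      · exact (e4.pow _).trans (OM_ex_pow ⟨hex, hEX2⟩ hAI _)
    have hEI : I n 1 (EE n) := by
      have h1 : EE n = ((n * (n + 1) : ℕ) : K) * t := by unfold EE; push_cast; rw [← htd]
      rw [h1]
      exact ht.mulL (natCast_mem _ _)
    have e6 := (hex n (EE n) (((2 * (n + 1) : ℕ) : K) * A) hEI
      (hAI.mulL (natCast_mem _ _))).symm
    have e7 : EE n + ((2 * (n + 1) : ℕ) : K) * A =
        EE n * hh n (i + 1) + kap n / 3 * Lm n (i + 1) := by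
      rw [hhv, hLv, hA, hδd]
      unfold EE kap
      rw [← htd]
      push_cast
      field_simp
      ring
    rw [e7] at e6
    exact e5.trans e6
  refine ⟨hone, ?_⟩
  have hEI : I n 1 (EE n) := by
    have h1 : EE n = ((n * (n + 1) : ℕ) : K) * t := by unfold EE; push_cast; rw [← htd]
    rw [h1]
    exact ht.mulL (natCast_mem _ _)
  have hkI : I n 1 (kap n / 3) := by
    have h1 : kap n / 3 = t * (t ^ 2 * ((-((n + 1) * n ^ 3 / 12) : ℚ) : K)) := by
      unfold kap; rw [← htd]; push_cast; ring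
    rw [h1]
    exact ht.mulR (mul_mem (pow_mem ht.mem _) (rat_mem _))
  have hLmO : ∀ i, i + 1 < n → Lm n (i + 1) ∈ O n := by
    intro i hi
    have h1 := hhO (i + 1) (by omega) hi
    have h2 : Lm n (i + 1) = hh n (i + 1) * (hh n (i + 1) ^ 2 - 1) * ((-(1 / 4) : ℚ) : K) := by
      unfold Lm; push_cast; ring
    rw [h2]
    exact mul_mem (mul_mem h1 (sub_mem (pow_mem h1 _) (one_mem _))) (rat_mem _)
  intro j
  induction j with
  | zero =>
    intro _
    have h0 : ex (EE n * HH n 0 + kap n / 3 * La n 0) = 1 := by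
      unfold HH La ex; simp
    rw [h0]
    unfold Wj
    rw [range_zero, prod_empty]
    exact EQ.refl (one_mem _)
  | succ j ih =>
    intro hj
    have h1 := (ih (by omega)).mul (hone j hj)
    have h2 : Wj n (j + 1) = Wj n j * om n j := by
      unfold Wj; rw [prod_range_succ]
    have h3 : EE n * HH n (j + 1) + kap n / 3 * La n (j + 1) =
        (EE n * HH n j + kap n / 3 * La n j) +
        (EE n * hh n (j + 1) + kap n / 3 * Lm n (j + 1)) := by
      unfold HH La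
      rw [sum_range_succ, sum_range_succ]; ring
    rw [h2, h3]
    refine h1.trans (hex n _ _ ?_ ?_).symm
    · exact (hEI.mulR (hHO j (by omega))).add (hkI.mulR (hLaO j (by omega)))
    · exact (hEI.mulR (hhO (j + 1) (by omega) hj)).add (hkI.mulR (hLmO j hj))

end Pool.Agent.R618.QP
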