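import Pool.Agent.R618.QP.Defs

set_option autoImplicit false

/-!
PHI: the value of `Φ` modulo the fifth power.
-/

namespace Pool.Agent.R618.QP

open Finset Polynomial Pool.Agent.R439 Pool.Agent.R618.SC

section
variable {n : ℕ} [NeZero n]

theorem PHI_abel (g W : ℕ → K) (hW : W 0 = 1) (M : ℕ) :
    ∑ j ∈ range (M + 1), (g (j + 1) - g j) * W j =
      g (M + 1) * W M - g 0 - ∑ i ∈ range M, g (i + 1) * (W (i + 1) - W i) := by
  induction M with
  | zero => rw [sum_range_one, range_zero, sum_empty, hW]; ring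
  | succ M ih => rw [sum_range_succ, ih, sum_range_succ _ M]; ring

theorem PHI_rat {k : ℕ} {x : K} (hx : I n k x) (c : ℚ) : I n k ((c : K) * x) := hx.mulL (rat_mem _)

theorem PHI_ex_mem {x : K} (hx : x ∈ O n) : ex x ∈ O n := by
  have h : ex x = 1 + x + x ^ 2 * ((1 / 2 : ℚ) : K) + x ^ 3 * ((1 / 6 : ℚ) : K) +
      x ^ 4 * ((1 / 24 : ℚ) : K) := by
    unfold ex
    push_cast
    ring
  rw [h]
  exact add_mem (add_mem (add_mem (add_mem (one_mem _) hx) (mul_mem (pow_mem hx _) (rat_mem _)))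
    (mul_mem (pow_mem hx _) (rat_mem _))) (mul_mem (pow_mem hx _) (rat_mem _))

/-- expansion of the exponential of a sum -/
theorem PHI_ex (h : T_EX) {x y : K} (hx : I n 1 x) (hy : I n 3 y) :
    EQ n 5 (ex (x + y)) (ex x + y * (1 + x)) := by
  have h1 := h.1 n x y hx (hy.mono (by norm_num))
  refine h1.trans ⟨mul_mem (PHI_ex_mem hx.mem) (PHI_ex_mem hy.mem),
    add_mem (PHI_ex_mem hx.mem) (mul_mem hy.mem (add_mem (one_mem _) hx.mem)), ?_⟩
  have h2 : ex x * ex y - (ex x + y * (1 + x)) =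
      ex x * (y * y * (((1 / 2 : ℚ) : K) + y * ((1 / 6 : ℚ) : K) + y ^ 2 * ((1 / 24 : ℚ) : K))) +
      y * (x * x) * (((1 / 2 : ℚ) : K) + x * ((1 / 6 : ℚ) : K) + x ^ 2 * ((1 / 24 : ℚ) : K)) := by
    unfold ex
    push_cast
    ring
  have m : ∀ z : K, z ∈ O n → ((1 / 2 : ℚ) : K) + z * ((1 / 6 : ℚ) : K) +
      z ^ 2 * ((1 / 24 : ℚ) : K) ∈ O n := fun z hz =>
    add_mem (add_mem (rat_mem _) (mul_mem hz (rat_mem _))) (mul_mem (pow_mem hz _) (rat_mem _))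
  rw [h2]
  refine I.add ?_ ?_
  · exact (((hy.mul hy).mono (by norm_num)).mulR (m y hy.mem)).mulL (PHI_ex_mem hx.mem)
  · exact (hy.mul (hx.mul hx)).mulR (m x hx.mem)

end

theorem tphi (h1 : T_EX) (h2 : T_UN) (h3 : T_OM) (h4 : T_SUM) (h5 : T_S1G) (h6 : T_HN)
    (h7 : T_RF) : T_PHI := by
  intro n _ hn
  obtain ⟨ht, -, -, -, -⟩ := h1.2 n
  obtain ⟨-, -, hhO, hgO, hHO, hLaO, -, heta, hGn⟩ := h2 n hn
  obtain ⟨-, hW⟩ := h3 n hn
  obtain ⟨sS2, sS3, sS5⟩ := h4 n hn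
  obtain ⟨hS1, hG, hgn, hg0⟩ := h5 n hn
  have hH := h6 n hn
  obtain ⟨hS4, hS6⟩ := h7 n hn
  set t := tt n with htd
  -- the basic quantities
  have hE : I n 1 (EE n) := by
    have e : EE n = ((n * (n + 1) : ℚ) : K) * t := by unfold EE; push_cast; rw [← htd]
    rw [e]; exact PHI_rat ht _
  have hs : I n 1 (sig n) := by
    have e : sig n = (((n : ℚ) ^ 2 / 2 : ℚ) : K) * t := by unfold sig; push_cast; rw [← htd]
    rw [e]; exact PHI_rat ht _
  have hk : I n 3 (kap n) := by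
    have e : kap n = ((-((n + 1) * (n : ℚ) ^ 3 / 4) : ℚ) : K) * (t * t * t) := by
      unfold kap; push_cast; rw [← htd]; ring
    rw [e]; exact PHI_rat ((ht.mul ht).mul ht) _
  have hP : Psi n ∈ O n := by
    have e : Psi n = ((-((n : ℚ) ^ 2 - 1) / 12 : ℚ) : K) := by unfold Psi; push_cast; ring
    rw [e]; exact rat_mem _
  have hrho : rho n = sig n + EE n / 2 := by unfold rho sig EE; ring
  have ha : (n : K) / 2 * t = EE n / 2 - sig n := by unfold sig EE; rw [← htd]; ring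
  rw [ha] at hg0
  have hE2 : I n 1 (EE n / 2) := by
    have e : EE n / 2 = ((1 / 2 : ℚ) : K) * EE n := by push_cast; ring
    rw [e]; exact PHI_rat hE _
  have hr : I n 1 (rho n) := by rw [hrho]; exact hs.add hE2
  generalize hEd : EE n = E at *
  generalize hsd : sig n = s at *
  generalize hkd : kap n = κ at *
  generalize hPd : Psi n = Ψ at *
  generalize hrd : rho n = ρ at *
  generalize hed : eta n = η at *
  generalize hGd : Gn n = G at *
  -- the expansion of `W`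
  obtain ⟨V, hV⟩ : ∃ V : ℕ → K, V = fun j => 1 + E * HH n j + E ^ 2 * HH n j ^ 2 / 2 +
    E ^ 3 * HH n j ^ 3 / 6 + E ^ 4 * HH n j ^ 4 / 24 +
    κ / 3 * (La n j + E * HH n j * La n j) := ⟨_, rfl⟩
  have hk3 : I n 3 (κ / 3) := by
    have e : κ / 3 = ((1 / 3 : ℚ) : K) * κ := by push_cast; ring
    rw [e]; exact PHI_rat hk _
  have hWV : ∀ j, j < n → EQ n 5 (Wj n j) (V j) := by
    intro j hj
    have e1 := (hW j hj).trans (PHI_ex h1 (hE.mulR (hHO j hj)) (hk3.mulR (hLaO j hj)))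
    have e2 : ex (E * HH n j) + κ / 3 * La n j * (1 + E * HH n j) = V j := by
      rw [hV]; unfold ex; ring
    rwa [e2] at e1
  obtain ⟨M, rfl⟩ : ∃ M, n = M + 1 := ⟨n - 1, by omega⟩
  have hM : M + 1 - 1 = M := by omega
  have hW0 : Wj (M + 1) 0 = 1 := by unfold Wj; simp
  have hPh : Ph (M + 1) = gj (M + 1) (M + 1) * Wj (M + 1) M - gj (M + 1) 0 -
      ∑ i ∈ range M, gj (M + 1) (i + 1) * (Wj (M + 1) (i + 1) - Wj (M + 1) i) := by
    unfold Ph
    exact PHI_abel (gj (M + 1)) (Wj (M + 1)) hW0 M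
  have hPV : EQ (M + 1) 5 (Ph (M + 1)) (gj (M + 1) (M + 1) * V M - gj (M + 1) 0 -
      ∑ i ∈ range M, gj (M + 1) (i + 1) * (V (i + 1) - V i)) := by
    rw [hPh]
    apply EQ.sub
    · apply EQ.sub
      · exact (EQ.refl (hgO _)).mul (hWV M (by omega))
      · exact EQ.refl (hgO _)
    · apply EQ.sum
      intro i hi
      rw [mem_range] at hi
      exact (EQ.refl (hgO _)).mul ((hWV (i + 1) (by omega)).sub (hWV i (by omega)))
  have hHs : ∀ i, HH (M + 1) (i + 1) = HH (M + 1) i + hh (M + 1) (i + 1) := by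
    intro i; unfold HH; rw [sum_range_succ]
  have hLs : ∀ i, La (M + 1) (i + 1) = La (M + 1) i + Lm (M + 1) (i + 1) := by
    intro i; unfold La; rw [sum_range_succ]
  have hsum : ∑ i ∈ range M, gj (M + 1) (i + 1) * (V (i + 1) - V i) =
      E * S1 (M + 1) + E ^ 2 / 2 * S2 (M + 1) + E ^ 3 / 6 * S3 (M + 1) +
      E ^ 4 / 24 * S4 (M + 1) + κ / 3 * (S5 (M + 1) + E * S6 (M + 1)) := by
    unfold S1 S2 S3 S4 S5 S6
    rw [hM]
    simp only [mul_sum, ← sum_add_distrib, mul_add]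
    apply sum_congr rfl
    intro i _
    rw [hV]
    simp only
    have e1 := hHs i
    have e2 := hLs i
    have e3 : hh (M + 1) (i + 1) = HH (M + 1) (i + 1) - HH (M + 1) i := by rw [e1]; ring
    have e4 : Lm (M + 1) (i + 1) = La (M + 1) (i + 1) - La (M + 1) i := by rw [e2]; ring
    rw [e3, e4]
    ring
  rw [hsum] at hPV
  rw [hM] at sS2 sS3 sS5 hH
  have hVM : V M = 1 + E * HH (M + 1) M + E ^ 2 * HH (M + 1) M ^ 2 / 2 +
    E ^ 3 * HH (M + 1) M ^ 3 / 6 + E ^ 4 * HH (M + 1) M ^ 4 / 24 +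
    κ / 3 * (La (M + 1) M + E * HH (M + 1) M * La (M + 1) M) := by rw [hV]
  rw [hVM] at hPV
  have hHM := hHO M (by omega)
  have hLM := hLaO M (by omega)
  have hgM := hgO (M + 1)
  clear hVM hsum hLs hHs hPh hW0 hWV hV V hW hHO hLaO hgO hhO h1 h2 h3 h4 h5 h6 h7
  generalize HH (M + 1) M = H at *
  generalize hLam : La (M + 1) M = Λ at *
  generalize gj (M + 1) (M + 1) = gn at *
  generalize gj (M + 1) 0 = g0 at *
  generalize S1 (M + 1) = s1 at *
  generalize S2 (M + 1) = s2 at *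
  generalize S3 (M + 1) = s3 at *
  generalize S4 (M + 1) = s4 at *
  generalize S5 (M + 1) = s5 at *
  generalize S6 (M + 1) = s6 at *
  have hsP : I (M + 1) 1 (2 * s * Ψ) := by
    have e : 2 * s * Ψ = ((2 : ℚ) : K) * (s * Ψ) := by push_cast; ring
    rw [e]; exact PHI_rat (hs.mulR hP) _
  have hH1 : I (M + 1) 1 H := by
    have e : H = (H - 2 * s * Ψ) + 2 * s * Ψ := by ring
    rw [e]; exact (hH.mono (by norm_num)).add hsP
  have hA : I (M + 1) 2 (ρ ^ 2 + ρ ^ 4 / 12) := by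
    have e : ρ ^ 2 + ρ ^ 4 / 12 = ρ * ρ * (1 + ((1 / 12 : ℚ) : K) * ρ ^ 2) := by push_cast; ring
    rw [e]
    exact (hr.mul hr).mulR (add_mem (one_mem _) (mul_mem (rat_mem _) (pow_mem hr.mem _)))
  have hgn2 : I (M + 1) 2 gn := by
    have e : gn = (gn - (ρ ^ 2 + ρ ^ 4 / 12)) + (ρ ^ 2 + ρ ^ 4 / 12) := by ring
    rw [e]; exact (hgn.mono (by norm_num)).add hA
  have hEH : I (M + 1) 2 (E * H) := hE.mul hH1
  -- P1
  have p1 : I (M + 1) 5 ((gn - (ρ ^ 2 + ρ ^ 4 / 12)) * (1 + E * H)) :=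
    hgn.mulR (add_mem (one_mem _) hEH.mem)
  have p2 : I (M + 1) 5 ((ρ ^ 2 + ρ ^ 4 / 12) * (E * (H - 2 * s * Ψ))) :=
    hA.mul (hE.mul hH)
  have p3 : I (M + 1) 5 (((1 / 12 : ℚ) : K) * (ρ * ρ * (ρ * ρ) * (E * (2 * s * Ψ)))) :=
    PHI_rat ((((hr.mul hr).mul (hr.mul hr)).mul (hE.mul hsP)).mono (by norm_num)) _
  have hV2 : I (M + 1) 3 (E * H * (E * H) * (((1 / 2 : ℚ) : K) + ((1 / 6 : ℚ) : K) * (E * H) +
      ((1 / 24 : ℚ) : K) * (E * H) ^ 2) + κ / 3 * (Λ + E * H * Λ)) := by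
    apply I.add
    · refine ((hEH.mul hEH).mono (by norm_num)).mulR ?_
      exact add_mem (add_mem (rat_mem _) (mul_mem (rat_mem _) hEH.mem))
        (mul_mem (rat_mem _) (pow_mem hEH.mem _))
    · exact hk3.mulR (add_mem hLM (mul_mem hEH.mem hLM))
  have p4 := hgn2.mul hV2
  -- P3
  have p5 : I (M + 1) 5 (E * (s1 - (2 * s + η * s * E + s ^ 3 / 3 + s * E ^ 2 / 4))) :=
    hE.mul hS1
  -- the expansion of s1 modulo the cube
  have hS1' : I (M + 1) 3 (s1 - (2 * s + η * s * E)) := by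
    have e : s1 - (2 * s + η * s * E) = (s1 - (2 * s + η * s * E + s ^ 3 / 3 + s * E ^ 2 / 4)) +
      (((1 / 3 : ℚ) : K) * (s * s * s) + ((1 / 4 : ℚ) : K) * (s * E * E)) := by
      push_cast; ring
    rw [e]
    exact (hS1.mono (by norm_num)).add ((PHI_rat ((hs.mul hs).mul hs) _).add
      (PHI_rat ((hs.mul hE).mul hE) _))
  have hq2 : I (M + 1) 3 (s2 - (4 * ρ * s * Ψ - 2 * η * s - η ^ 2 * s * E)) := by
    have e : s2 - (4 * ρ * s * Ψ - 2 * η * s - η ^ 2 * s * E) =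
      ((2 : ℚ) : K) * ((G - η - ρ + ρ) * (H - 2 * s * Ψ)) +
      ((2 : ℚ) : K) * ((G - η - ρ) * (2 * s * Ψ)) -
      η * (s1 - (2 * s + η * s * E)) := by
      rw [sS2]; push_cast; ring
    rw [e]
    exact ((PHI_rat (((hG.mono (by norm_num)).add hr).mul hH) _).add
      (PHI_rat (hG.mul hsP) _)).sub (hS1'.mulL heta)
  have hS1'' : I (M + 1) 2 (s1 - 2 * s) := by
    have e : s1 - 2 * s = (s1 - (2 * s + η * s * E)) + η * (s * E) := by ring
    rw [e]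
    exact (hS1'.mono (by norm_num)).add ((hs.mul hE).mulL heta)
  have hS2' : I (M + 1) 2 (s2 + 2 * η * s) := by
    have e : s2 + 2 * η * s = (s2 - (4 * ρ * s * Ψ - 2 * η * s - η ^ 2 * s * E)) +
      (((2 : ℚ) : K) * (ρ * (2 * s * Ψ)) - η ^ 2 * (s * E)) := by push_cast; ring
    rw [e]
    exact (hq2.mono (by norm_num)).add ((PHI_rat (hr.mul hsP) _).sub
      ((hs.mul hE).mulL (pow_mem heta _)))
  have hq3 : I (M + 1) 2 (s3 - (-s - 4 * s * Ψ + 3 * η ^ 2 * s)) := by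
    have e : s3 - (-s - 4 * s * Ψ + 3 * η ^ 2 * s) =
      ((3 : ℚ) : K) * ((G - η - ρ + ρ) * (H * H)) - ((1 / 2 : ℚ) : K) * (s1 - 2 * s) -
      ((2 : ℚ) : K) * (H - 2 * s * Ψ) - ((3 / 2 : ℚ) : K) * (η * (s2 + 2 * η * s)) := by
      rw [sS3]; push_cast; ring
    rw [e]
    exact (((PHI_rat ((((hG.mono (by norm_num)).add hr).mul (hH1.mul hH1)).mono
      (by norm_num)) _).sub (PHI_rat hS1'' _)).sub (PHI_rat hH _)).sub
      (PHI_rat (hS2'.mulL heta) _)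
  have hq5 : I (M + 1) 2 (s5 + 2 * s * Ψ) := by
    have e : s5 + 2 * s * Ψ = ((-1 : ℚ) : K) * (H - 2 * s * Ψ) := by rw [sS5]; push_cast; ring
    rw [e]; exact PHI_rat hH _
  have p6 : I (M + 1) 5 (((1 / 2 : ℚ) : K) *
      (E * E * (s2 - (4 * ρ * s * Ψ - 2 * η * s - η ^ 2 * s * E)))) :=
    PHI_rat ((hE.mul hE).mul hq2) _
  have p7 : I (M + 1) 5 (((1 / 6 : ℚ) : K) *
      (E * E * E * (s3 - (-s - 4 * s * Ψ + 3 * η ^ 2 * s)))) :=
    PHI_rat (((hE.mul hE).mul hE).mul hq3) _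
  have p8 : I (M + 1) 5 (((1 / 24 : ℚ) : K) * (E * E * (E * E) * s4)) :=
    PHI_rat (((hE.mul hE).mul (hE.mul hE)).mul hS4) _
  have p9 : I (M + 1) 5 (κ / 3 * (s5 + 2 * s * Ψ)) := hk3.mul hq5
  have p10 : I (M + 1) 5 (κ / 3 * (E * s6)) := hk3.mul (hE.mul hS6)
  refine hPV.trans ⟨hPV.2.1, ?_, ?_⟩
  · have e : Ψ * s * (2 * E * s ^ 2 + E ^ 3 / 6 + 2 / 3 * κ) =
      Ψ * s * (((2 : ℚ) : K) * E * s ^ 2 + ((1 / 6 : ℚ) : K) * E ^ 3 +
        ((2 / 3 : ℚ) : K) * κ) := by push_cast; ring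
    rw [e]
    exact mul_mem (mul_mem hP hs.mem) (add_mem (add_mem
      (mul_mem (mul_mem (rat_mem _) hE.mem) (pow_mem hs.mem _))
      (mul_mem (rat_mem _) (pow_mem hE.mem _))) (mul_mem (rat_mem _) hk.mem))
  · have key := ((((((((((p1.add p2).add p3).add p4).sub hg0).sub p5).sub p6).sub p7).sub p8).sub
      p9).sub p10)
    convert key using 1
    rw [hrho]
    push_cast
    ring

end Pool.Agent.R618.QP
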