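import Pool.Agent.R618.QP.Defs

set_option autoImplicit false

/-!
RF: reflection `j → n - j` (for MP_9fe52c_nt).
-/

namespace Pool.Agent.R618.QP

open Finset Polynomial Pool.Agent.R439 Pool.Agent.R618.SC

namespace RF

variable {n : ℕ} [NeZero n]

theorem rf_two {x : K} (h : I n 1 (x + x)) : I n 1 x := by
  have h1 : ((2 : ℕ) : K)⁻¹ ∈ O n := natinv_mem 2
  have h2 := h.mulL h1
  have h3 : ((2 : ℕ) : K)⁻¹ * (x + x) = x := by
    push_cast
    rw [← two_mul, ← mul_assoc, inv_mul_cancel₀ (two_ne_zero), one_mul]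
  rwa [h3] at h2

theorem rf_half {x y : K} (h : EQ n 1 x y) (h' : EQ n 1 x (-y)) : I n 1 x := by
  apply rf_two
  have := (h.add h').2.2
  have e : x + x - (y + -y) = x + x := by ring
  rwa [e] at this

/-- partial sums of an antisymmetric sequence -/
theorem rf_sum {f F : ℕ → K} (hF0 : F 0 = 0) (hF : ∀ m, F (m + 1) = F m + f (m + 1))
    (hm : ∀ j, j < n → F j ∈ O n)
    (hf : ∀ j, 0 < j → j < n → EQ n 1 (f (n - j)) (-f j)) :
    ∀ i, i < n → EQ n 1 (F (n - 1 - i)) (F i) := by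
  have hn : 0 < n := Nat.pos_of_ne_zero (NeZero.ne n)
  have h1 : ∀ i, i < n → EQ n 1 (F (n - 1 - i)) (F i + F (n - 1)) := by
    intro i
    induction i with
    | zero =>
      intro _
      rw [Nat.sub_zero, hF0, zero_add]
      exact EQ.refl (hm _ (by omega))
    | succ i ih =>
      intro hi
      have h2 := ih (by omega)
      have h3 := hf (i + 1) (by omega) hi
      have e1 : F (n - 1 - (i + 1)) = F (n - 1 - i) - f (n - (i + 1)) := by
        have := hF (n - 1 - (i + 1))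
        rw [show n - 1 - (i + 1) + 1 = n - 1 - i by omega] at this
        rw [show n - (i + 1) = n - 1 - i by omega, this]
        ring
      have e2 : F (i + 1) + F (n - 1) = (F i + F (n - 1)) - (-f (i + 1)) := by
        rw [hF i]; ring
      rw [e1, e2]
      exact h2.sub h3
  have h2 : I n 1 (F (n - 1)) := by
    have h3 := h1 (n - 1) (by omega)
    rw [Nat.sub_self, hF0] at h3
    apply rf_two
    have := h3.symm.2.2
    rwa [sub_zero] at this
  intro i hi
  have h3 := (h1 i hi)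
  refine h3.trans ?_
  have h4 := (EQ.refl (n := n) (k := 1) (hm i hi)).add (EQ.of_I h2)
  rwa [add_zero] at h4

/-- the reflected weighted sum -/
theorem rf_main {g G : ℕ → K} (hn : 1 < n)
    (hg : ∀ j, 0 < j → j < n → EQ n 1 (g (n - j)) (g j))
    (hG : ∀ i, i < n → EQ n 1 (G (n - 1 - i)) (G i)) :
    I n 1 (∑ i ∈ range (n - 1), g (i + 1) * (G (i + 1) - G i)) := by
  have h1 : EQ n 1 (∑ i ∈ range (n - 1), g (i + 1) * (G (i + 1) - G i))
      (∑ i ∈ range (n - 1), -(g (i + 1) * (G (i + 1) - G i))) := by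
    rw [← sum_range_reflect]
    refine EQ.sum fun i hi => ?_
    rw [mem_range] at hi
    have e1 : n - 1 - 1 - i + 1 = n - (i + 1) := by omega
    have e2 : n - (i + 1) = n - 1 - i := by omega
    have e3 : n - 1 - 1 - i = n - 1 - (i + 1) := by omega
    have h2 := hg (i + 1) (by omega) (by omega)
    have h3 := hG i (by omega)
    have h4 := hG (i + 1) (by omega)
    have h5 := h2.mul (h3.sub h4)
    rw [e1, e3]
    have e4 : g (i + 1) * (G i - G (i + 1)) = -(g (i + 1) * (G (i + 1) - G i)) := by ring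
    rw [e4] at h5
    rwa [show G (n - (i + 1)) = G (n - 1 - i) by rw [e2]]
  rw [sum_neg_distrib] at h1
  apply rf_two
  have := h1.2.2
  rwa [sub_neg_eq_add] at this

theorem rf_Y (h1 : T_EX) (j : ℕ) (hj : j ≤ n) : EQ n 1 (Y n (n - j) * Y n j) 1 := by
  have e : Y n (n - j) * Y n j = (ep n ^ 2 * q ^ n) * q ^ (n * n) := by
    rw [Y, Y]
    have e1 : q ^ ((n + 1) * (n - j)) * q ^ ((n + 1) * j) = q ^ n * q ^ (n * n) := by
      rw [← pow_add, ← pow_add, ← mul_add, Nat.sub_add_cancel hj]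
      congr 1; ring
    calc ep n * q ^ ((n + 1) * (n - j)) * (ep n * q ^ ((n + 1) * j)) =
        ep n ^ 2 * (q ^ ((n + 1) * (n - j)) * q ^ ((n + 1) * j)) := by ring
      _ = _ := by rw [e1]; ring
  have h2 := (h1.2 n).2.2.2.2.mono (l := 1) (by norm_num)
  have h3 := Q_eq (n := n) (n : ℤ)
  rw [← Nat.cast_mul, zpow_natCast] at h3
  have h4 := h2.mul h3
  rwa [one_mul, ← e] at h4

theorem rf_Yi (h1 : T_EX) (h2 : T_UN) (hn : 1 < n) (j : ℕ) (hj : j ≤ n) :
    EQ n 1 (Y n (n - j)) (Y n j)⁻¹ := by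
  have hU := (h2 n hn).1 j
  have h3 := (rf_Y (n := n) h1 j hj).mul (EQ.refl hU.2.2)
  rwa [one_mul, mul_assoc, mul_inv_cancel₀ hU.1, mul_one] at h3

theorem rf_h (h1 : T_EX) (h2 : T_UN) (hn : 1 < n) (j : ℕ) (h0 : 0 < j) (hj : j < n) :
    EQ n 1 (hh n (n - j)) (-hh n j) := by
  have hY := rf_Yi h1 h2 hn j hj.le
  have hU := (h2 n hn).1 j
  have hV := (h2 n hn).2.1 j h0 hj
  have hW := (h2 n hn).2.1 (n - j) (by omega) (by omega)
  have h3 : EQ n 1 (hh n (n - j)) ((1 + (Y n j)⁻¹) / (1 - (Y n j)⁻¹)) :=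
    ((EQ.refl (one_mem _)).add hY).div one_pos ((EQ.refl (one_mem _)).sub hY) hW
  have e : (1 + (Y n j)⁻¹) / (1 - (Y n j)⁻¹) = -hh n j := by
    have a := hU.1
    have b := hV.1
    have c : Y n j - 1 ≠ 0 := by
      intro h; apply b; rw [← neg_sub, h, neg_zero]
    have d : 1 - (Y n j)⁻¹ = (Y n j - 1) / Y n j := by field_simp
    rw [hh, d]
    rw [show 1 - Y n j = -(Y n j - 1) by ring]
    field_simp
    ring
  rwa [e] at h3

theorem rf_g (h1 : T_EX) (h2 : T_UN) (hn : 1 < n) (j : ℕ) (_ : 0 < j) (hj : j < n) :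
    EQ n 1 (gj n (n - j)) (gj n j) := by
  have hY := rf_Yi h1 h2 hn j hj.le
  have hU := (h2 n hn).1 (n - j)
  have h3 := (hY.add (hY.inv one_pos hU)).sub (EQ.refl (n := n) (k := 1) (x := 2) (by
    have := natCast_mem (O n) 2
    exact_mod_cast this))
  rw [inv_inv] at h3
  have e : (Y n j)⁻¹ + Y n j - 2 = gj n j := by rw [gj]; ring
  rw [e] at h3
  exact h3

theorem rf_L (h1 : T_EX) (h2 : T_UN) (hn : 1 < n) (j : ℕ) (h0 : 0 < j) (hj : j < n) :
    EQ n 1 (Lm n (n - j)) (-Lm n j) := by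
  have h3 := rf_h h1 h2 hn j h0 hj
  have h4 : ((4 : ℕ) : K)⁻¹ ∈ O n := natinv_mem 4
  have h5 := ((h3.mul ((h3.pow 2).sub (EQ.refl (one_mem _)))).mul (EQ.refl h4)).neg
  have e1 : Lm n (n - j) = -(hh n (n - j) * (hh n (n - j) ^ 2 - 1) * ((4 : ℕ) : K)⁻¹) := by
    rw [Lm]; push_cast; rw [div_eq_mul_inv]
  have e2 : -Lm n j = -(-hh n j * ((-hh n j) ^ 2 - 1) * ((4 : ℕ) : K)⁻¹) := by
    rw [Lm]; push_cast; rw [div_eq_mul_inv]; ring
  rw [e1, e2]
  exact h5

end RF

open RF in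
theorem trf (h1 : T_EX) (h2 : T_UN) : T_RF := by
  intro n _ hn
  have hH : ∀ i, i < n → EQ n 1 (HH n (n - 1 - i)) (HH n i) :=
    rf_sum (f := hh n) (F := HH n) (by simp [HH]) (fun m => by simp [HH, sum_range_succ])
      (h2 n hn).2.2.2.2.1 (rf_h h1 h2 hn)
  have hL : ∀ i, i < n → EQ n 1 (La n (n - 1 - i)) (La n i) :=
    rf_sum (f := Lm n) (F := La n) (by simp [La]) (fun m => by simp [La, sum_range_succ])
      (h2 n hn).2.2.2.2.2.1 (rf_L h1 h2 hn)
  constructor
  · exact rf_main (g := gj n) (G := fun i => HH n i ^ 4) hn (rf_g h1 h2 hn)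
      (fun i hi => (hH i hi).pow 4)
  · exact rf_main (g := gj n) (G := fun i => La n i * HH n i) hn (rf_g h1 h2 hn)
      (fun i hi => (hL i hi).mul (hH i hi))

end Pool.Agent.R618.QP
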