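import Pool.Agent.R618.QP.Defs

set_option autoImplicit false

/-!
Piece S1G of MP_9fe52c_nt (helper92): expansions of `S1`, `G_n`, `g_n`, `g_0`.
-/

namespace Pool.Agent.R618.QP

open Finset Polynomial Pool.Agent.R439 Pool.Agent.R618.SC

section
variable {n : ℕ} [NeZero n]

theorem s1g_inv_mem (c : ℕ) : ((c : K))⁻¹ ∈ O n := natinv_mem c

theorem s1g_half_mem : (2 : K)⁻¹ ∈ O n := by simpa using natinv_mem (n := n) 2

theorem s1g_num_mem (c : ℕ) [c.AtLeastTwo] : (OfNat.ofNat c : K)⁻¹ ∈ O n := by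
  have h := natinv_mem (n := n) (OfNat.ofNat c)
  rwa [Nat.cast_ofNat] at h

theorem s1g_ex_mem {x : K} (hx : x ∈ O n) : ex x ∈ O n := by
  unfold ex
  refine add_mem (add_mem (add_mem (add_mem (one_mem _) hx) ?_) ?_) ?_
  · rw [div_eq_mul_inv]; exact mul_mem (pow_mem hx _) (s1g_num_mem 2)
  · rw [div_eq_mul_inv]; exact mul_mem (pow_mem hx _) (s1g_num_mem 6)
  · rw [div_eq_mul_inv]; exact mul_mem (pow_mem hx _) (s1g_num_mem 24)

theorem s1g_inv (h : T_EX) {x y : K} (hx : I n 1 x) (hy : U n y) (he : EQ n 5 y (ex x)) :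
    EQ n 5 y⁻¹ (ex (-x)) := by
  have h1 : EQ n 5 (ex x * ex (-x)) 1 := by
    have := (h.1 n x (-x) hx hx.neg).symm
    rw [add_neg_cancel] at this
    have e : ex (0 : K) = 1 := by simp [ex]
    rwa [e] at this
  have hm : ex (-x) ∈ O n := s1g_ex_mem (neg_mem hx.mem)
  have h2 : EQ n 5 (y * ex (-x)) 1 := (he.mul (EQ.refl hm)).trans h1
  have h3 : EQ n 5 (y⁻¹ * (y * ex (-x))) (y⁻¹ * 1) := (EQ.refl hy.2.2).mul h2
  rw [← mul_assoc, inv_mul_cancel₀ hy.1, one_mul, mul_one] at h3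
  exact h3.symm

theorem s1g_ex_sub (x : K) : ex x + ex (-x) - 2 = x ^ 2 + x ^ 4 / 12 := by
  unfold ex; ring

theorem s1g_Y (n j : ℕ) : Y n j = ep n * (q ^ (n + 1)) ^ j := by
  unfold Y; rw [pow_mul]

theorem s1g_sum {e Q : K} (he : e ≠ 0) (hQ : Q ≠ 0) (m : ℕ) :
    (1 - Q) * ∑ i ∈ range m, ((e * Q ^ (i + 1))⁻¹ - e * Q ^ (i + 1)) =
      e⁻¹ * ((Q ^ m)⁻¹ - 1) - e * (Q - Q ^ (m + 1)) := by
  induction m with
  | zero => simp
  | succ m ih =>
    rw [sum_range_succ, mul_add, ih]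
    have h1 : Q ^ m ≠ 0 := pow_ne_zero _ hQ
    rw [pow_succ Q (m + 1), pow_succ Q m]
    field_simp
    ring

theorem ts1g (h : T_EX) (h2 : T_UN) : T_S1G := by
  intro n _ hn
  obtain ⟨hadd, hx2⟩ := h
  have hEX : T_EX := ⟨hadd, hx2⟩
  obtain ⟨ht, -, hqn, hUe, -⟩ := hx2 n
  obtain ⟨hUY, hU1, -, -, -, -, -, hη, -⟩ := h2 n hn
  have hn2 : ((n : K) / 2) ∈ O n := by
    rw [div_eq_mul_inv]; exact mul_mem (natCast_mem _ _) (s1g_num_mem 2)
  set a : K := (n : K) / 2 * tt n with ha_def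
  have ha : I n 1 a := ht.mulL hn2
  have hE : I n 1 (EE n) := by
    unfold EE
    exact ht.mulL (mul_mem (natCast_mem _ _) (add_mem (natCast_mem _ _) (one_mem _)))
  have hρ : I n 1 (rho n) := by
    unfold rho
    exact ht.mulL (add_mem (pow_mem (natCast_mem _ _) _) hn2)
  have hep : ep n = ex (-a) := by
    unfold ep; rw [ha_def, neg_mul]
  have hepm : EQ n 5 (ep n) (ex (-a)) := by
    rw [← hep]; exact EQ.refl hUe.2.1
  have hepi : EQ n 5 (ep n)⁻¹ (ex a) := by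
    have := s1g_inv hEX ha.neg hUe hepm
    rwa [neg_neg] at this
  set Q : K := q ^ (n + 1) with hQ_def
  have hQ0 : Q ≠ 0 := pow_ne_zero _ q_ne
  have hQU : U n Q := U_qpow _
  have hQn : EQ n 5 (Q ^ n) (ex (EE n)) := by
    have h3 := hqn (n + 1)
    have e1 : q ^ (n * (n + 1)) = Q ^ n := by rw [hQ_def, ← pow_mul, mul_comm n (n + 1)]
    have e2 : (((n + 1 : ℕ) : K)) * n * tt n = EE n := by unfold EE; push_cast; ring
    rw [e1, e2] at h3
    exact h3
  have hQni : EQ n 5 (Q ^ n)⁻¹ (ex (-EE n)) := s1g_inv hEX hE (hQU.pow n) hQn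
  have hρE : -a + EE n = rho n := by
    rw [ha_def]; unfold EE rho; ring
  have hYn : EQ n 5 (Y n n) (ex (rho n)) := by
    rw [s1g_Y, ← hQ_def]
    have h3 := (hepm.mul hQn).trans (hadd n (-a) (EE n) ha.neg hE).symm
    rwa [hρE] at h3
  have hYni : EQ n 5 (Y n n)⁻¹ (ex (-rho n)) := s1g_inv hEX hρ (hUY n) hYn
  have h1Q : U n (1 - Q) := by
    have h3 : ¬ (n : ℤ) ∣ ((n + 1 : ℕ) : ℤ) := by
      intro h
      have h4 : n ∣ n + 1 := by exact_mod_cast h
      have h5 : n ∣ 1 := (Nat.dvd_add_right (dvd_refl n)).mp h4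
      have h6 := Nat.le_of_dvd one_pos h5
      omega
    have h4 := U_one_sub (n := n) h3
    rwa [zpow_natCast, ← hQ_def] at h4
  have h1Q0 : 1 - Q ≠ 0 := h1Q.1
  have hη_def : eta n = (1 + Q) / (1 - Q) := rfl
  refine ⟨?_, ?_, ?_, ?_⟩
  · -- S1
    have hs : S1 n = ∑ i ∈ range (n - 1), ((ep n * Q ^ (i + 1))⁻¹ - ep n * Q ^ (i + 1)) := by
      unfold S1
      refine sum_congr rfl fun i hi => ?_
      rw [mem_range] at hi
      have hy := (hUY (i + 1)).1
      have h1y := (hU1 (i + 1) (by omega) (by omega)).1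
      rw [← s1g_Y]
      unfold gj hh
      field_simp
      ring
    have hsum := s1g_sum hUe.1 hQ0 (n - 1)
    rw [← hs] at hsum
    have e1 : Q ^ (n - 1 + 1) = Q ^ n := by congr 1; omega
    have e2 : (Q ^ (n - 1))⁻¹ = Q * (Q ^ n)⁻¹ := by
      rw [← e1, pow_succ, mul_inv]
      have : Q ^ (n - 1) ≠ 0 := pow_ne_zero _ hQ0
      field_simp
    rw [e1, e2] at hsum
    have hS : S1 n = (eta n - 1) / 2 * ((ep n)⁻¹ * (Q ^ n)⁻¹ - ep n) +
        (eta n + 1) / 2 * (ep n * Q ^ n - (ep n)⁻¹) := by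
      have e3 : (eta n - 1) / 2 = Q / (1 - Q) := by
        rw [hη_def]; field_simp; ring
      have e4 : (eta n + 1) / 2 = 1 / (1 - Q) := by
        rw [hη_def]; field_simp; ring
      rw [e3, e4]
      have e5 : S1 n = ((ep n)⁻¹ * (Q * (Q ^ n)⁻¹ - 1) - ep n * (Q - Q ^ n)) / (1 - Q) := by
        rw [← hsum]; field_simp
      rw [e5]
      ring
    have m1 : (eta n - 1) / 2 ∈ O n := by
      rw [div_eq_mul_inv]; exact mul_mem (sub_mem hη (one_mem _)) (s1g_num_mem 2)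
    have m2 : (eta n + 1) / 2 ∈ O n := by
      rw [div_eq_mul_inv]; exact mul_mem (add_mem hη (one_mem _)) (s1g_num_mem 2)
    have c1 : EQ n 5 ((ep n)⁻¹ * (Q ^ n)⁻¹) (ex (-rho n)) := by
      have h3 := (hepi.mul hQni).trans (hadd n a (-EE n) ha hE.neg).symm
      have e : a + -EE n = -rho n := by rw [← hρE]; ring
      rwa [e] at h3
    have c2 : EQ n 5 (ep n * Q ^ n) (ex (rho n)) := by
      have := hYn
      rwa [s1g_Y, ← hQ_def] at this
    have hS5 : EQ n 5 (S1 n) ((eta n - 1) / 2 * (ex (-rho n) - ex (-a)) +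
        (eta n + 1) / 2 * (ex (rho n) - ex a)) := by
      rw [hS]
      exact ((EQ.refl m1).mul (c1.sub hepm)).add ((EQ.refl m2).mul (c2.sub hepi))
    have hdiff : ((eta n - 1) / 2 * (ex (-rho n) - ex (-a)) +
        (eta n + 1) / 2 * (ex (rho n) - ex a)) -
        (2 * sig n + eta n * sig n * EE n + sig n ^ 3 / 3 + sig n * EE n ^ 2 / 4) =
        eta n * (24 : K)⁻¹ * (rho n ^ 4 - a ^ 4) := by
      rw [ha_def]
      unfold ex rho sig EE
      ring
    have h4 : I n 4 (rho n ^ 4 - a ^ 4) := by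
      have p4 : ∀ x : K, I n 1 x → I n 4 (x ^ 4) := by
        intro x hx
        have := ((hx.mul hx).mul (hx.mul hx))
        have e : x * x * (x * x) = x ^ 4 := by ring
        rwa [e] at this
      exact (p4 _ hρ).sub (p4 _ ha)
    have : S1 n - (2 * sig n + eta n * sig n * EE n + sig n ^ 3 / 3 + sig n * EE n ^ 2 / 4) =
        (S1 n - ((eta n - 1) / 2 * (ex (-rho n) - ex (-a)) +
        (eta n + 1) / 2 * (ex (rho n) - ex a))) + eta n * (24 : K)⁻¹ * (rho n ^ 4 - a ^ 4) := by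
      rw [← hdiff]; ring
    rw [this]
    exact (hS5.2.2.mono (by norm_num)).add (h4.mulL (mul_mem hη (s1g_num_mem 24)))
  · -- G_n
    have hY1 : Y n n = Y n (n - 1) * Q := by
      rw [s1g_Y, s1g_Y, mul_assoc, ← pow_succ, ← hQ_def]
      congr 2; omega
    have hy0 := (hUY (n - 1)).1
    have hyn := (hUY n).1
    have e1 : Gn n - eta n - rho n =
        (1 - Q)⁻¹ * (Q * ((Y n n)⁻¹ - (1 - rho n)) + (Y n n - (1 + rho n))) := by
      unfold Gn
      rw [← hQ_def, hη_def, hY1]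
      field_simp
      ring
    rw [e1]
    have r2 : I n 2 ((rho n) ^ 2) := by
      have := hρ.mul hρ
      rwa [← pow_two] at this
    have hA : I n 2 (Y n n - (1 + rho n)) := by
      have e : Y n n - (1 + rho n) = (Y n n - ex (rho n)) +
          (2⁻¹ + rho n * 6⁻¹ + rho n ^ 2 * 24⁻¹) * rho n ^ 2 := by
        unfold ex; ring
      rw [e]
      refine (hYn.2.2.mono (by norm_num)).add (r2.mulL ?_)
      exact add_mem (add_mem (s1g_num_mem 2) (mul_mem hρ.mem (s1g_num_mem 6)))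
        (mul_mem (pow_mem hρ.mem _) (s1g_num_mem 24))
    have hB : I n 2 ((Y n n)⁻¹ - (1 - rho n)) := by
      have e : (Y n n)⁻¹ - (1 - rho n) = ((Y n n)⁻¹ - ex (-rho n)) +
          (2⁻¹ - rho n * 6⁻¹ + rho n ^ 2 * 24⁻¹) * rho n ^ 2 := by
        unfold ex; ring
      rw [e]
      refine (hYni.2.2.mono (by norm_num)).add (r2.mulL ?_)
      exact add_mem (sub_mem (s1g_num_mem 2) (mul_mem hρ.mem (s1g_num_mem 6)))
        (mul_mem (pow_mem hρ.mem _) (s1g_num_mem 24))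
    exact ((hB.mulL hQU.2.1).add hA).mulL h1Q.2.2
  · -- g_n
    have e : gj n n - (rho n ^ 2 + rho n ^ 4 / 12) =
        (Y n n - ex (rho n)) + ((Y n n)⁻¹ - ex (-rho n)) := by
      rw [← s1g_ex_sub]; unfold gj; ring
    rw [e]
    exact hYn.2.2.add hYni.2.2
  · -- g_0
    have hY0 : Y n 0 = ep n := by rw [s1g_Y, pow_zero, mul_one]
    have e : gj n 0 - (a ^ 2 + a ^ 4 / 12) = (ep n - ex (-a)) + ((ep n)⁻¹ - ex a) := by
      rw [← s1g_ex_sub]; unfold gj; rw [hY0]; ring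
    rw [e]
    exact hepm.2.2.add hepi.2.2

end

end Pool.Agent.R618.QP
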