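import Pool.Agent.R618.QP.Defs

set_option autoImplicit false

/-! QP-SQ: antisymmetry at `Φ_{n²}` (MP_9fe52c_nt). -/

namespace Pool.Agent.R618.QP

open Finset Polynomial Pool.Agent.R439 Pool.Agent.R618.SC

/-- `P_k = (Q;Q)_k`, `Q = q^(N+2)` -/
noncomputable def sqP (N k : ℕ) : K := poch (q ^ (N + 2)) (q ^ (N + 2)) k

/-- the `Q`-binomial coefficient -/
noncomputable def sqB (N j : ℕ) : K := sqP N N / (sqP N j * sqP N (N - j))

/-- `(q;Q)_j/(Q;Q)_j` -/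
noncomputable def sqR (N j : ℕ) : K := poch q (q ^ (N + 2)) j / sqP N j

theorem sqP_ne (N k : ℕ) : sqP N k ≠ 0 := by
  refine poch_ne fun i _ => ?_
  rw [← pow_mul, ← pow_add]
  exact q_pow_ne_one (by omega)

theorem sqP_succ (N k : ℕ) : sqP N (k + 1) = sqP N k * (1 - q ^ (((N : ℤ) + 2) * (k + 1))) := by
  rw [sqP, poch_succ, ← sqP, ← pow_mul, ← pow_add, ← zpow_natCast]
  congr 3
  push_cast
  ring

theorem sq_ndvd {N M : ℕ} (hM : M = (N + 1) ^ 2) {e : ℤ} (h0 : 0 < e)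
    (h1 : e < ((N : ℤ) + 1) ^ 2) : ¬ (M : ℤ) ∣ e := by
  intro h
  have := Int.le_of_dvd h0 h
  rw [hM] at this
  push_cast at this
  omega

theorem sqP_U {N M : ℕ} [NeZero M] (hM : M = (N + 1) ^ 2) {k : ℕ} (hk : k ≤ N) :
    U M (sqP N k) := by
  induction k with
  | zero => rw [sqP, poch_zero]; exact U.one
  | succ k ih =>
    rw [sqP_succ]
    refine (ih (by omega)).mul (U_one_sub (sq_ndvd hM (by positivity) ?_))
    have h1 : (k : ℤ) + 1 ≤ N := by exact_mod_cast hk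
    nlinarith

theorem sqB_U {N M : ℕ} [NeZero M] (hM : M = (N + 1) ^ 2) {j : ℕ} (hj : j ≤ N) :
    U M (sqB N j) :=
  (sqP_U hM le_rfl).div ((sqP_U hM hj).mul (sqP_U hM (Nat.sub_le _ _)))

theorem sqB_refl {N j : ℕ} (hj : j ≤ N) : sqB N (N - j) = sqB N j := by
  rw [sqB, sqB, Nat.sub_sub_self hj, mul_comm (sqP N (N - j))]

theorem sqB_succ {N j : ℕ} (hj : j + 1 ≤ N) : sqB N (j + 1) = sqB N j *
    ((1 - q ^ (((N : ℤ) + 2) * (N - j))) / (1 - q ^ (((N : ℤ) + 2) * (j + 1)))) := by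
  obtain ⟨t, ht⟩ : ∃ t, N - j = t + 1 := ⟨N - j - 1, by omega⟩
  have ht2 : N - (j + 1) = t := by omega
  have h1 : sqP N (N - j) = sqP N (N - (j + 1)) * (1 - q ^ (((N : ℤ) + 2) * (N - j))) := by
    rw [ht, ht2, sqP_succ]
    congr 4
    omega
  have n1 : (1 - q ^ (((N : ℤ) + 2) * (N - j)) : K) ≠ 0 := by
    apply one_sub_zpow_ne
    have : (0 : ℤ) < (N : ℤ) - j := by omega
    positivity
  have n2 : (1 - q ^ (((N : ℤ) + 2) * (j + 1)) : K) ≠ 0 := by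
    apply one_sub_zpow_ne
    positivity
  rw [sqB, sqB, sqP_succ, h1]
  have n3 := sqP_ne N j
  have n4 := sqP_ne N (N - (j + 1))
  field_simp

theorem sqR_succ (N j : ℕ) : sqR N (j + 1) = sqR N j *
    ((1 - q ^ (((N : ℤ) + 2) * j + 1)) / (1 - q ^ (((N : ℤ) + 2) * (j + 1)))) := by
  rw [sqR, sqR, poch_succ, sqP_succ, mul_div_mul_comm]
  congr 3
  rw [← pow_mul, ← pow_succ', ← zpow_natCast]
  push_cast
  rfl

/-- `r_j² ≡ Q^(j(j-1)-2jN) b_j²` -/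
theorem sqR_sq {N M : ℕ} [NeZero M] (hM : M = (N + 1) ^ 2) {j : ℕ} (hj : j ≤ N) :
    EQ M 1 (sqR N j ^ 2)
      (q ^ (((N : ℤ) + 2) * ((j : ℤ) * (j - 1) - 2 * j * N)) * sqB N j ^ 2) := by
  induction j with
  | zero =>
    have h1 : sqR N 0 = 1 := by rw [sqR, sqP, poch_zero, poch_zero, div_one]
    have h2 : sqB N 0 = 1 := by
      rw [sqB, Nat.sub_zero]
      have : sqP N 0 = 1 := by rw [sqP, poch_zero]
      rw [this, one_mul, div_self (sqP_ne N N)]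
    rw [h1, h2]
    simp only [Nat.cast_zero, zero_mul, mul_zero, sub_self, zpow_zero, one_pow, mul_one]
    exact EQ.refl (one_mem _)
  | succ j ih =>
    have ih := ih (by omega)
    rw [sqR_succ, sqB_succ hj, mul_pow]
    have hu : U M (1 - q ^ (((N : ℤ) + 2) * (j + 1))) := by
      refine U_one_sub (sq_ndvd hM (by positivity) ?_)
      have h1 : (j : ℤ) + 1 ≤ N := by exact_mod_cast hj
      nlinarith
    have h1 : EQ M 1 (1 - q ^ (((N : ℤ) + 2) * j + 1)) (1 - q ^ (((N : ℤ) + 2) * (j - N))) := by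
      have h2 := q_shift (n := M) (((N : ℤ) + 2) * (j - N)) 1
      have e : ((N : ℤ) + 2) * (j - N) + (M : ℤ) * 1 = ((N : ℤ) + 2) * j + 1 := by
        rw [hM]; push_cast; ring
      rw [e] at h2
      exact (EQ.refl (one_mem _)).sub h2
    have h3 := ih.mul ((EQ.div one_pos h1 (EQ.refl hu.2.1) hu).pow 2)
    have e2 : q ^ (((N : ℤ) + 2) * ((j : ℤ) * (j - 1) - 2 * j * N)) * sqB N j ^ 2 *
        ((1 - q ^ (((N : ℤ) + 2) * (j - N))) / (1 - q ^ (((N : ℤ) + 2) * (j + 1)))) ^ 2 =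
        q ^ (((N : ℤ) + 2) * (((j + 1 : ℕ) : ℤ) * (((j + 1 : ℕ) : ℤ) - 1) -
          2 * ((j + 1 : ℕ) : ℤ) * N)) * (sqB N j *
          ((1 - q ^ (((N : ℤ) + 2) * (N - j))) / (1 - q ^ (((N : ℤ) + 2) * (j + 1))))) ^ 2 := by
      have e3 : (1 - q ^ (((N : ℤ) + 2) * (j - N)) : K) =
          -(q ^ (((N : ℤ) + 2) * (j - N)) * (1 - q ^ (((N : ℤ) + 2) * (N - j)))) := by
        have e4 : q ^ (((N : ℤ) + 2) * (j - N)) * q ^ (((N : ℤ) + 2) * (N - j)) = (1 : K) := by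
          rw [← zpow_add₀ q_ne]
          have : ((N : ℤ) + 2) * (j - N) + ((N : ℤ) + 2) * (N - j) = 0 := by ring
          rw [this, zpow_zero]
        linear_combination (-1 : K) * e4
      have e5 : q ^ (((N : ℤ) + 2) * (((j + 1 : ℕ) : ℤ) * (((j + 1 : ℕ) : ℤ) - 1) -
          2 * ((j + 1 : ℕ) : ℤ) * N)) =
          q ^ (((N : ℤ) + 2) * ((j : ℤ) * (j - 1) - 2 * j * N)) *
            (q ^ (((N : ℤ) + 2) * (j - N))) ^ 2 := by
        rw [← zpow_natCast (q ^ (((N : ℤ) + 2) * (j - N))) 2, ← zpow_mul, ← zpow_add₀ q_ne]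
        congr 1
        push_cast
        ring
      rw [e3, e5]
      ring
    rw [← e2]
    exact h3

/-- the `j`-th term of the sum -/
noncomputable def sqT (N j : ℕ) : K := (1 - q ^ (2 * (N + 2) * j + 1)) *
  (sqR N j) ^ (2 * (N + 2)) * q ^ (((N + 1) ^ 2 - 1) * j)

noncomputable def sqV (N j : ℕ) : K := (1 - q ^ (((N : ℤ) + 2) * (2 * j - N))) *
  q ^ (((N : ℤ) + 2) * (((N : ℤ) + 2) * (j : ℤ) ^ 2 - 2 * j * ((N : ℤ) + 1) ^ 2)) *
    (sqB N j ^ 2) ^ (N + 2)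

theorem sqT_eq {N M : ℕ} [NeZero M] (hM : M = (N + 1) ^ 2) {j : ℕ} (hj : j ≤ N) :
    EQ M 1 (sqT N j) (sqV N j) := by
  have h1 : EQ M 1 (1 - q ^ (2 * (N + 2) * j + 1)) (1 - q ^ (((N : ℤ) + 2) * (2 * j - N))) := by
    have h2 := q_shift (n := M) (((N : ℤ) + 2) * (2 * j - N)) 1
    have e : ((N : ℤ) + 2) * (2 * j - N) + (M : ℤ) * 1 = ((2 * (N + 2) * j + 1 : ℕ) : ℤ) := by
      rw [hM]; push_cast; ring
    rw [e, zpow_natCast] at h2
    exact (EQ.refl (one_mem _)).sub h2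
  have h3 := (sqR_sq hM hj).pow (N + 2)
  have h4 := (h1.mul h3).mul (EQ.refl (n := M) (k := 1) (pow_mem' (((N + 1) ^ 2 - 1) * j)))
  have e1 : sqT N j = (1 - q ^ (2 * (N + 2) * j + 1)) * (sqR N j ^ 2) ^ (N + 2) *
      q ^ (((N + 1) ^ 2 - 1) * j) := by
    rw [sqT, ← pow_mul]
  have e2 : sqV N j = (1 - q ^ (((N : ℤ) + 2) * (2 * j - N))) *
      (q ^ (((N : ℤ) + 2) * ((j : ℤ) * (j - 1) - 2 * j * N)) * sqB N j ^ 2) ^ (N + 2) *
      q ^ (((N + 1) ^ 2 - 1) * j) := by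
    have e3 : q ^ (((N : ℤ) + 2) * (((N : ℤ) + 2) * (j : ℤ) ^ 2 - 2 * j * ((N : ℤ) + 1) ^ 2)) =
        (q ^ (((N : ℤ) + 2) * ((j : ℤ) * (j - 1) - 2 * j * N))) ^ (N + 2) *
          q ^ (((N + 1) ^ 2 - 1) * j) := by
      rw [← zpow_natCast (q ^ (((N : ℤ) + 2) * ((j : ℤ) * (j - 1) - 2 * j * N))) (N + 2),
        ← zpow_mul, ← zpow_natCast q (((N + 1) ^ 2 - 1) * j), ← zpow_add₀ q_ne]
      congr 1
      have e4 : (((((N + 1) ^ 2 - 1) * j : ℕ)) : ℤ) = (((N : ℤ) + 1) ^ 2 - 1) * j := by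
        rw [Nat.cast_mul, Nat.cast_sub (Nat.one_le_pow _ _ (by omega))]
        push_cast
        rfl
      rw [e4]
      push_cast
      ring
    rw [sqV, e3, mul_pow]
    ring
  rw [e1, e2]
  exact h4

theorem sqV_refl {N M : ℕ} [NeZero M] (hM : M = (N + 1) ^ 2) {j : ℕ} (hj : j ≤ N) :
    EQ M 1 (sqV N (N - j)) (-(sqV N j)) := by
  have hc : ((N - j : ℕ) : ℤ) = (N : ℤ) - j := by omega
  set E : ℤ := ((N : ℤ) + 2) * (((N : ℤ) + 2) * (j : ℤ) ^ 2 - 2 * j * ((N : ℤ) + 1) ^ 2) with hE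
  have e1 : sqV N (N - j) = -((1 - q ^ (((N : ℤ) + 2) * (2 * j - N))) *
      q ^ (E + (M : ℤ) * (-(((N : ℤ) + 2) * (N - 2 * j)))) * (sqB N j ^ 2) ^ (N + 2)) := by
    have e2 : (1 - q ^ (((N : ℤ) + 2) * (2 * ((N : ℤ) - j) - N)) : K) =
        -(q ^ (((N : ℤ) + 2) * (N - 2 * j)) * (1 - q ^ (((N : ℤ) + 2) * (2 * j - N)))) := by
      have e3 : q ^ (((N : ℤ) + 2) * (N - 2 * j)) * q ^ (((N : ℤ) + 2) * (2 * j - N)) =
          (1 : K) := by
        rw [← zpow_add₀ q_ne]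
        have : ((N : ℤ) + 2) * (N - 2 * j) + ((N : ℤ) + 2) * (2 * j - N) = 0 := by ring
        rw [this, zpow_zero]
      have e4 : ((N : ℤ) + 2) * (2 * ((N : ℤ) - j) - N) = ((N : ℤ) + 2) * (N - 2 * j) := by ring
      rw [e4]
      linear_combination (-1 : K) * e3
    have e5 : q ^ (E + (M : ℤ) * (-(((N : ℤ) + 2) * (N - 2 * j)))) =
        q ^ (((N : ℤ) + 2) * (N - 2 * j)) *
          q ^ (((N : ℤ) + 2) * (((N : ℤ) + 2) * ((N : ℤ) - j) ^ 2 -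
            2 * ((N : ℤ) - j) * ((N : ℤ) + 1) ^ 2)) := by
      rw [← zpow_add₀ q_ne]
      congr 1
      rw [hE, hM]
      push_cast
      ring
    rw [sqV, hc, sqB_refl hj, e2, e5]
    ring
  rw [e1, sqV]
  refine EQ.neg (((EQ.refl ?_).mul (q_shift E _)).mul (EQ.refl ?_))
  · exact sub_mem (one_mem _) (zpow_mem _)
  · exact pow_mem (pow_mem (sqB_U hM hj).2.1 _) _

theorem tsq : T_SQ := by
  intro n _ hn
  obtain ⟨N, rfl⟩ : ∃ N, n = N + 1 := ⟨n - 1, by omega⟩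
  have hM : (N + 1) ^ 2 = (N + 1) ^ 2 := rfl
  have hFF : FF (N + 1) = ∑ j ∈ range (N + 1), sqT N j := rfl
  have h1 : EQ ((N + 1) ^ 2) 1 (∑ j ∈ range (N + 1), sqT N j) (∑ j ∈ range (N + 1), sqV N j) :=
    EQ.sum fun j hj => sqT_eq hM (by have := mem_range.1 hj; omega)
  have h2 : EQ ((N + 1) ^ 2) 1 (∑ j ∈ range (N + 1), sqV N (N - j))
      (∑ j ∈ range (N + 1), -(sqV N j)) :=
    EQ.sum fun j hj => sqV_refl hM (by have := mem_range.1 hj; omega)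
  have h3 : ∑ j ∈ range (N + 1), sqV N (N - j) = ∑ j ∈ range (N + 1), sqV N j := by
    have := Finset.sum_range_reflect (fun j => sqV N j) (N + 1)
    simpa using this
  rw [h3, sum_neg_distrib] at h2
  set V := ∑ j ∈ range (N + 1), sqV N j with hV
  have h4 : I ((N + 1) ^ 2) 1 V := by
    have h5 : I ((N + 1) ^ 2) 1 (2 * V) := by
      have := h2.2.2
      rwa [sub_neg_eq_add, ← two_mul] at this
    refine I.cancel (x := 2) two_ne_zero ?_ h5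
    have := natinv_mem (n := (N + 1) ^ 2) 2
    exact_mod_cast this
  rw [hFF]
  have h6 := h1.2.2.add h4
  rwa [sub_add_cancel] at h6

end Pool.Agent.R618.QP
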