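import Pool.Agent.R618.QP.Defs

set_option autoImplicit false

/-! T_SUM: exact identities. -/

namespace Pool.Agent.R618.QP

open Finset Polynomial Pool.Agent.R439 Pool.Agent.R618.SC

theorem SUM_Y_succ (n j : ℕ) : Y n (j + 1) = q ^ (n + 1) * Y n j := by
  unfold Y
  rw [Nat.mul_succ, pow_add]
  ring

theorem SUM_gh {Y : K} (h0 : Y ≠ 0) (h1 : 1 - Y ≠ 0) :
    (Y + Y⁻¹ - 2) * ((1 + Y) / (1 - Y)) = Y⁻¹ - Y := by
  field_simp
  ring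

theorem SUM_ghh {Y : K} (h0 : Y ≠ 0) (h1 : 1 - Y ≠ 0) :
    (Y + Y⁻¹ - 2) * ((1 + Y) / (1 - Y)) ^ 2 = (Y + Y⁻¹ - 2) + 4 := by
  field_simp
  ring

/-- `G_{N+1}` -/
noncomputable def SUM_G (n N : ℕ) : K :=
  ((Y n N)⁻¹ + q ^ (n + 1) * Y n N) / (1 - q ^ (n + 1))

theorem SUM_Gdiff (n N : ℕ) (hQ : 1 - q ^ (n + 1) ≠ 0) (h0 : Y n (N + 1) ≠ 0)
    (h0' : Y n N ≠ 0) (h1 : 1 - Y n (N + 1) ≠ 0) :
    SUM_G n (N + 1) - SUM_G n N = gj n (N + 1) * hh n (N + 1) := by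
  unfold gj hh
  rw [SUM_gh h0 h1]
  unfold SUM_G
  rw [SUM_Y_succ] at *
  have hq : (q ^ (n + 1) : K) ≠ 0 := pow_ne_zero _ q_ne
  field_simp
  ring

theorem SUM_Gh (n N : ℕ) (hQ : 1 - q ^ (n + 1) ≠ 0) (h0 : Y n N ≠ 0) (h1 : 1 - Y n N ≠ 0) :
    (SUM_G n N - eta n) * hh n N = (gj n N + 4) / 2 + eta n * (gj n N * hh n N) / 2 := by
  unfold gj hh
  rw [SUM_gh h0 h1]
  unfold SUM_G eta
  field_simp
  ring

theorem SUM_HH_succ (n N : ℕ) : HH n (N + 1) = HH n N + hh n (N + 1) := by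
  unfold HH
  rw [sum_range_succ]

theorem SUM_S2 (n : ℕ) (hQ : 1 - q ^ (n + 1) ≠ 0) (h0 : ∀ j, Y n j ≠ 0)
    (h1 : ∀ j, 0 < j → j < n → 1 - Y n j ≠ 0) (N : ℕ) (hN : N < n) :
    ∑ i ∈ range N, gj n (i + 1) * (HH n (i + 1) ^ 2 - HH n i ^ 2)
      = 2 * (SUM_G n N - eta n) * HH n N - eta n * ∑ i ∈ range N, gj n (i + 1) * hh n (i + 1) := by
  induction N with
  | zero => simp [HH]
  | succ N ih =>
    have h2 := h1 (N + 1) (Nat.succ_pos _) hN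
    have e1 := SUM_Gdiff n N hQ (h0 _) (h0 _) h2
    have e2 := SUM_Gh n (N + 1) hQ (h0 _) h2
    have e3 : gj n (N + 1) * hh n (N + 1) ^ 2 = gj n (N + 1) + 4 := SUM_ghh (h0 _) h2
    rw [sum_range_succ, sum_range_succ, ih (by omega), SUM_HH_succ]
    linear_combination (2 * HH n N) * e1.symm + (-2) * e2 + e3 +
      (2 * hh n (N + 1)) * (0 : K) * e1

theorem SUM_S3 (n : ℕ) (hQ : 1 - q ^ (n + 1) ≠ 0) (h0 : ∀ j, Y n j ≠ 0)
    (h1 : ∀ j, 0 < j → j < n → 1 - Y n j ≠ 0) (N : ℕ) (hN : N < n) :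
    ∑ i ∈ range N, gj n (i + 1) * (HH n (i + 1) ^ 3 - HH n i ^ 3)
      = 3 * (SUM_G n N - eta n) * HH n N ^ 2
        - ((∑ i ∈ range N, gj n (i + 1) * hh n (i + 1)) + 4 * HH n N) / 2
        - 3 / 2 * eta n * ∑ i ∈ range N, gj n (i + 1) * (HH n (i + 1) ^ 2 - HH n i ^ 2) := by
  induction N with
  | zero => simp [HH]
  | succ N ih =>
    have h2 := h1 (N + 1) (Nat.succ_pos _) hN
    have e1 := SUM_Gdiff n N hQ (h0 _) (h0 _) h2
    have e2 := SUM_Gh n (N + 1) hQ (h0 _) h2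
    have e3 : gj n (N + 1) * hh n (N + 1) ^ 2 = gj n (N + 1) + 4 := SUM_ghh (h0 _) h2
    have e4 : gj n (N + 1) * hh n (N + 1) ^ 3 = (gj n (N + 1) + 4) * hh n (N + 1) := by
      rw [← e3]; ring
    have h5 : ∀ f : ℕ → K, ∑ i ∈ range (N + 1), f i = ∑ i ∈ range N, f i + f N :=
      fun f => sum_range_succ f N
    simp only [h5]
    rw [ih (by omega), SUM_HH_succ]
    linear_combination (3 * HH n N ^ 2) * e1.symm - (3 * (2 * HH n N + hh n (N + 1))) * e2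
      + (3 * HH n N) * e3 + e4

theorem tsum (h : T_UN) : T_SUM := by
  intro n _ hn
  obtain ⟨u1, u2, _⟩ := h n hn
  have hQ : 1 - q ^ (n + 1) ≠ 0 := one_sub_pow_ne (Nat.succ_ne_zero n)
  have h0 : ∀ j, Y n j ≠ 0 := fun j => (u1 j).1
  have h1 : ∀ j, 0 < j → j < n → 1 - Y n j ≠ 0 := fun j a b => (u2 j a b).1
  have hG : Gn n = SUM_G n (n - 1) := rfl
  refine ⟨?_, ?_, ?_⟩
  · unfold S2 S1
    rw [hG]
    exact SUM_S2 n hQ h0 h1 (n - 1) (by omega)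
  · unfold S3 S2 S1
    rw [hG]
    exact SUM_S3 n hQ h0 h1 (n - 1) (by omega)
  · unfold S5 HH
    rw [← sum_neg_distrib]
    apply sum_congr rfl
    intro i hi
    rw [mem_range] at hi
    have e3 : gj n (i + 1) * hh n (i + 1) ^ 2 = gj n (i + 1) + 4 :=
      SUM_ghh (h0 _) (h1 (i + 1) (Nat.succ_pos _) (by omega))
    unfold Lm
    linear_combination (-(hh n (i + 1) / 4)) * e3

end Pool.Agent.R618.QP
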