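import Pool.Agent.R618.QP.Defs

set_option autoImplicit false

/-!
QP-UN (MP_9fe52c_nt): units and integrality.
-/

namespace Pool.Agent.R618.QP

open Finset Polynomial Pool.Agent.R439 Pool.Agent.R618.SC

theorem UN_inv {n : ℕ} [NeZero n] (k : ℕ) : (1 : K) / (k : K) ∈ O n := by
  rw [one_div]
  exact natinv_mem k

theorem UN_one {n : ℕ} [NeZero n] {x : K} (hx : I n 1 x) : EQ n 1 (ex x) 1 := by
  have hO := hx.mem
  have h2 : (1 : K) / 2 ∈ O n := by simpa using UN_inv (n := n) 2
  have h6 : (1 : K) / 6 ∈ O n := by simpa using UN_inv (n := n) 6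
  have h24 : (1 : K) / 24 ∈ O n := by simpa using UN_inv (n := n) 24
  have e : ex x - 1 = x * (1 + x * (1 / 2) + x ^ 2 * (1 / 6) + x ^ 3 * (1 / 24)) := by
    unfold ex; ring
  have h : I n 1 (ex x - 1) := by
    rw [e]
    exact hx.mulR (add_mem (add_mem (add_mem (one_mem _) (mul_mem hO h2))
      (mul_mem (pow_mem hO _) h6)) (mul_mem (pow_mem hO _) h24))
  refine ⟨?_, one_mem _, h⟩
  have := add_mem h.mem (one_mem (O n))
  simpa using this

theorem UN_pow {n : ℕ} [NeZero n] {m : ℕ} (h : ¬ n ∣ m) : U n (1 - q ^ m) := by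
  have := U_one_sub (n := n) (e := (m : ℤ)) (by exact_mod_cast h)
  rwa [zpow_natCast] at this

theorem UN_lt {n i k : ℕ} (h0 : 0 < k) (h1 : k < n) : ¬ n ∣ n * i + k := by
  intro h
  have h2 := (Nat.dvd_add_right (Dvd.intro i rfl)).1 h
  have := Nat.le_of_dvd h0 h2
  omega

theorem tun (h : T_EX) : T_UN := by
  intro n _ hn
  obtain ⟨-, h2⟩ := h
  obtain ⟨ht, -, -, hep, -⟩ := h2 n
  have hI : I n 1 (-((n : K) / 2) * tt n) := by
    have h3 := rat_mem (n := n) (-((n : ℚ) / 2))
    push_cast at h3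
    exact ht.mulL h3
  have hep1 : EQ n 1 (ep n) 1 := UN_one hI
  have hY : ∀ j, U n (Y n j) := fun j => hep.mul (U_qpow _)
  have hYq : ∀ j, EQ n 1 (Y n j) (q ^ j) := by
    intro j
    have h3 := q_shift (n := n) (j : ℤ) (j : ℤ)
    have e1 : (j : ℤ) + (n : ℤ) * (j : ℤ) = (((n + 1) * j : ℕ) : ℤ) := by push_cast; ring
    rw [e1, zpow_natCast, zpow_natCast] at h3
    have h4 := hep1.mul h3
    rw [one_mul] at h4
    exact h4
  have h1Y : ∀ j, 0 < j → j < n → U n (1 - Y n j) := by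
    intro j h0 h1
    have h3 := (EQ.refl (n := n) (k := 1) (one_mem (O n))).sub (hYq j)
    refine h3.symm.unit one_pos (UN_pow ?_)
    intro h4
    have := Nat.le_of_dvd h0 h4
    omega
  have hh' : ∀ j, 0 < j → j < n → hh n j ∈ O n := by
    intro j h0 h1
    unfold hh
    rw [div_eq_mul_inv]
    exact mul_mem (add_mem (one_mem _) (hY j).2.1) (h1Y j h0 h1).2.2
  have hg : ∀ j, gj n j ∈ O n := fun j =>
    sub_mem (add_mem (hY j).2.1 (hY j).2.2) (ofNat_mem _ _)
  have hH : ∀ j, j < n → HH n j ∈ O n := fun j hj =>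
    sum_mem fun i hi => hh' (i + 1) (by omega) (by have := mem_range.1 hi; omega)
  have hL : ∀ j, 0 < j → j < n → Lm n j ∈ O n := by
    intro j h0 h1
    have h3 := hh' j h0 h1
    have h4 : (1 : K) / 4 ∈ O n := by simpa using UN_inv (n := n) 4
    have e : Lm n j = -(hh n j * (hh n j ^ 2 - 1) * (1 / 4)) := by unfold Lm; ring
    rw [e]
    exact neg_mem (mul_mem (mul_mem h3 (sub_mem (pow_mem h3 _) (one_mem _))) h4)
  have hLa : ∀ j, j < n → La n j ∈ O n := fun j hj =>
    sum_mem fun i hi => hL (i + 1) (by omega) (by have := mem_range.1 hi; omega)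
  have hden : U n (1 - q ^ (n + 1)) := by
    apply UN_pow
    have := UN_lt (n := n) (i := 1) (k := 1) one_pos hn
    rwa [mul_one] at this
  refine ⟨hY, h1Y, hh', hg, hH, hLa, ?_, ?_, ?_⟩
  · intro i hi
    unfold om
    refine (U_qpow _).mul (U.pow ?_ _)
    refine (UN_pow ?_).div (UN_pow ?_)
    · have e : (n + 1) * i + 1 = n * i + (i + 1) := by ring
      rw [e]
      exact UN_lt (by omega) hi
    · have e : (n + 1) * (i + 1) = n * (i + 1) + (i + 1) := by ring
      rw [e]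
      exact UN_lt (by omega) hi
  · unfold eta
    rw [div_eq_mul_inv]
    exact mul_mem (add_mem (one_mem _) (pow_mem' _)) hden.2.2
  · unfold Gn
    rw [div_eq_mul_inv]
    exact mul_mem (add_mem (hY _).2.2 (mul_mem (pow_mem' _) (hY _).2.1)) hden.2.2

end Pool.Agent.R618.QP
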